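import Pool.Agent.Helper3.FOB.Defs

/-!
Basic facts on the subgroup generated by the `n`-th powers.
-/

namespace Pool.Agent.Helper3.FOB

section
variable {X : Type*} {n : ℕ}

theorem pow_mem_powSubgroup (w : FreeGroup X) : w ^ n ∈ powSubgroup X n :=
  Subgroup.subset_closure ⟨w, rfl⟩

theorem powSubgroup_le_comap {Y : Type*} (φ : FreeGroup X →* FreeGroup Y) :
    powSubgroup X n ≤ (powSubgroup Y n).comap φ := by
  unfold powSubgroup
  rw [Subgroup.closure_le]
  rintro g ⟨w, rfl⟩
  change φ (w ^ n) ∈ powSubgroup Y n
  rw [map_pow]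
  exact pow_mem_powSubgroup (φ w)

theorem map_mem_powSubgroup {Y : Type*} (φ : FreeGroup X →* FreeGroup Y) {w : FreeGroup X}
    (hw : w ∈ powSubgroup X n) : φ w ∈ powSubgroup Y n := powSubgroup_le_comap φ hw

instance powSubgroup_normal : (powSubgroup X n).Normal where
  conj_mem := by
    intro w hw g
    have := powSubgroup_le_comap (n := n) (MulAut.conj g).toMonoidHom hw
    simpa [MulAut.conj_apply] using this

/-- homomorphisms to groups of exponent dividing `n` kill the `n`-th power subgroup -/
theorem powSubgroup_le_ker {E : Type*} [Group E] (φ : FreeGroup X →* E)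
    (hφ : ∀ w, (φ w) ^ n = 1) : powSubgroup X n ≤ φ.ker := by
  unfold powSubgroup
  rw [Subgroup.closure_le]
  rintro g ⟨w, rfl⟩
  change φ (w ^ n) = 1
  rw [map_pow]; exact hφ w

theorem map_eq_one_of_mem {E : Type*} [Group E] (φ : FreeGroup X →* E)
    (hφ : ∀ w, (φ w) ^ n = 1) {w : FreeGroup X} (hw : w ∈ powSubgroup X n) : φ w = 1 :=
  powSubgroup_le_ker φ hφ hw

theorem fullOrder_four_iff (w : FreeGroup X) :
    FullOrder X 4 w ↔ w * w ∉ powSubgroup X 4 := by
  constructor
  · intro h hw
    have := h 2 (by norm_num) (by norm_num)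
    rw [pow_two] at this
    exact this hw
  · intro h d hd hd4 hmem
    have hle : d ≤ 4 := Nat.le_of_dvd (by norm_num) hd
    interval_cases d
    · norm_num at hd
    · rw [pow_one] at hmem; exact h (Subgroup.mul_mem _ hmem hmem)
    · rw [pow_two] at hmem; exact h hmem
    · norm_num at hd
    · exact hd4 rfl

theorem fullOrder_prime_iff {p : ℕ} (hp : p.Prime) (w : FreeGroup X) :
    FullOrder X p w ↔ w ∉ powSubgroup X p := by
  constructor
  · intro h hw
    have := h 1 (one_dvd _) (fun h1 => hp.one_lt.ne h1)
    rw [pow_one] at this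
    exact this hw
  · intro h d hd hdp hmem
    rcases (Nat.dvd_prime hp).mp hd with rfl | h2
    · rw [pow_one] at hmem; exact h hmem
    · exact hdp h2

/-- every element of the free group comes from finitely many generators -/
theorem exists_fin_word (w : FreeGroup X) : ∃ (m : ℕ) (e : Fin m → X) (w' : FreeGroup (Fin m)),
    Function.Injective e ∧ FreeGroup.map e w' = w := by
  classical
  -- first: a finite set of letters
  have h1 : ∃ S : Finset X, w ∈ Subgroup.closure (FreeGroup.of '' (S : Set X)) := by
    induction w using FreeGroup.induction_on with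
    | C1 => exact ⟨∅, Subgroup.one_mem _⟩
    | of x => exact ⟨{x}, Subgroup.subset_closure ⟨x, by simp, rfl⟩⟩
    | inv_of x ih =>
      obtain ⟨S, hS⟩ := ih
      exact ⟨S, Subgroup.inv_mem _ hS⟩
    | mul x y ihx ihy =>
      obtain ⟨S, hS⟩ := ihx
      obtain ⟨T, hT⟩ := ihy
      refine ⟨S ∪ T, Subgroup.mul_mem _ ?_ ?_⟩
      · refine Subgroup.closure_mono (Set.image_mono ?_) hS
        intro a ha; simp only [Finset.coe_union, Set.mem_union]; exact Or.inl ha
      · refine Subgroup.closure_mono (Set.image_mono ?_) hT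
        intro a ha; simp only [Finset.coe_union, Set.mem_union]; exact Or.inr ha
  obtain ⟨S, hS⟩ := h1
  let e : Fin S.card → X := fun i => (S.equivFin.symm i : X)
  have he : Function.Injective e := by
    intro i j hij
    exact S.equivFin.symm.injective (Subtype.ext hij)
  refine ⟨S.card, e, ?_⟩
  have hle : Subgroup.closure (FreeGroup.of '' (S : Set X)) ≤ (FreeGroup.map e).range := by
    rw [Subgroup.closure_le]
    rintro g ⟨x, hx, rfl⟩
    refine ⟨FreeGroup.of (S.equivFin ⟨x, hx⟩), ?_⟩
    rw [FreeGroup.map.of]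
    simp [e]
  obtain ⟨w', hw'⟩ := hle hS
  exact ⟨w', he, hw'⟩

/-- a retraction for the map induced by an injection -/
theorem exists_retraction {Y : Type*} (e : Y → X) (he : Function.Injective e) :
    ∃ r : FreeGroup X →* FreeGroup Y, ∀ w, r (FreeGroup.map e w) = w := by
  classical
  let r : FreeGroup X →* FreeGroup Y :=
    FreeGroup.lift (fun x => if h : ∃ y, e y = x then FreeGroup.of h.choose else 1)
  refine ⟨r, ?_⟩
  have : (r.comp (FreeGroup.map e)) = MonoidHom.id _ := by
    ext y
    have hex : ∃ y', e y' = e y := ⟨y, rfl⟩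
    have hch : hex.choose = y := he hex.choose_spec
    simp [r, hch]
  intro w
  exact DFunLike.congr_fun this w

end

end Pool.Agent.Helper3.FOB
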