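import Mathlib

/-!
Key relation for exponent four: a purely algebraic computation with five
endomorphisms and four involutions.
-/

namespace Pool.Agent.Helper3.FOB

section tools
variable {G : Type*} [Group G]

theorem inv_of_sq {z : G} (h : z * z = 1) : z⁻¹ = z := inv_eq_of_mul_eq_one_right h

theorem cancel_sq {z : G} (h : z * z = 1) (a : G) : z * (z * a) = a := by
  rw [← mul_assoc, h, one_mul]

/-- `a` and `b` both invert `c`, so `a * b` commutes with `c`. -/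
theorem comm_of_invert {a b c : G} (ha : a * c = c⁻¹ * a) (hb : b * c = c⁻¹ * b) :
    Commute (a * b) c := by
  have ha' : a * c⁻¹ = c * a := by
    have : c * (a * c) * c⁻¹ = c * (c⁻¹ * a) * c⁻¹ := by rw [ha]
    simpa [mul_assoc] using this.symm
  change a * b * c = c * (a * b)
  rw [mul_assoc, hb, ← mul_assoc, ha', mul_assoc]

/-- inversion for the inverse element -/
theorem invert_inv {a c : G} (ha : a * c = c⁻¹ * a) : a * c⁻¹ = c * a := by
  have : c * (a * c) * c⁻¹ = c * (c⁻¹ * a) * c⁻¹ := by rw [ha]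
  simpa [mul_assoc] using this.symm

end tools

section core
variable {G : Type*} [Group G]

theorem core (ξ T0 T1 T2 T3 : G →* G)
    (hξ0 : ∀ g, ξ (T0 g) = T1 (ξ g)) (hξ1 : ∀ g, ξ (T1 g) = T2 (ξ g))
    (hξ2 : ∀ g, ξ (T2 g) = T3 (ξ g)) (hξ3 : ∀ g, ξ (T3 g) = T0 (ξ g))
    (h00 : ∀ g, T0 (T0 g) = g)
    (h32 : ∀ g, T3 (T2 g) = T0 (T1 g))
    (z0 z1 z2 z3 : G) (s0 : z0 * z0 = 1) (s1 : z1 * z1 = 1) (s2 : z2 * z2 = 1)
    (s3 : z3 * z3 = 1)
    (x0 : ξ z0 = z1) (x1 : ξ z1 = z2) (x2 : ξ z2 = z3) (x3 : ξ z3 = z0)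
    (f0 : T0 z0 = z0) (f1 : T1 z1 = z1) (f2 : T2 z2 = z2) (f3 : T3 z3 = z3)
    (R1 : z3 * z2 * z1 * z0 = 1)
    (A0 : T0 (z1 * z2) = T1 (z1 * z2))
    (R3 : z2 * T2 z0 * T0 z2 * z0 = 1)
    (J1 : (T2 (z0 * z1))⁻¹ * T0 (T2 (z0 * z1)) * (T0 (z0 * z1))⁻¹ * (z0 * z1) = 1)
    (R5 : T3 z2 * T3 (T1 z0) * T1 z2 * z0 = 1)
    (R6 : ξ (ξ (ξ (T1 z0))) * ξ (ξ (T1 z0)) * ξ (T1 z0) * T1 z0 = 1) :
    (z2 * z0) * (z2 * z0) = 1 := by
  have i0 := inv_of_sq s0
  have i1 := inv_of_sq s1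
  have i2 := inv_of_sq s2
  have i3 := inv_of_sq s3
  obtain ⟨p, hp⟩ : ∃ p, p = z0 * z1 := ⟨_, rfl⟩
  obtain ⟨q, hq⟩ : ∃ q, q = z1 * z2 := ⟨_, rfl⟩
  -- p = z3 z2
  have hp' : p = z3 * z2 := by
    have h : z3 * z2 * z1 * z0 * (z0 * z1) = z0 * z1 := by rw [R1, one_mul]
    simp only [mul_assoc, cancel_sq s0, s1, mul_one] at h
    rw [hp, h]
  have R1x : z0 * z3 * z2 * z1 = 1 := by
    have := congrArg ξ R1
    simpa [x0, x1, x2, x3] using this
  have hq' : q = z0 * z3 := by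
    have h : z0 * z3 * z2 * z1 * (z1 * z2) = z1 * z2 := by rw [R1x, one_mul]
    simp only [mul_assoc, cancel_sq s1, s2, mul_one] at h
    rw [hq, h]
  have ξp : ξ p = q := by rw [hp, map_mul, x0, x1, hq]
  have ξq : ξ q = p⁻¹ := by rw [hq, map_mul, x1, x2, hp', mul_inv_rev, i2, i3]
  -- inversions of p, q
  have I0p : z0 * p = p⁻¹ * z0 := by rw [hp, mul_inv_rev, i0, i1, cancel_sq s0, mul_assoc, s0, mul_one]
  have I1p : z1 * p = p⁻¹ * z1 := by rw [hp, mul_inv_rev, i0, i1, mul_assoc]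
  have I2p : z2 * p = p⁻¹ * z2 := by rw [hp', mul_inv_rev, i3, i2, mul_assoc]
  have I3p : z3 * p = p⁻¹ * z3 := by rw [hp', mul_inv_rev, i3, i2, cancel_sq s3, mul_assoc, s3, mul_one]
  have I0q : z0 * q = q⁻¹ * z0 := by rw [hq', mul_inv_rev, i0, i3, cancel_sq s0, mul_assoc, s0, mul_one]
  have I1q : z1 * q = q⁻¹ * z1 := by rw [hq, mul_inv_rev, i1, i2, cancel_sq s1, mul_assoc, s1, mul_one]
  have I2q : z2 * q = q⁻¹ * z2 := by rw [hq, mul_inv_rev, i1, i2, mul_assoc]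
  have I3q : z3 * q = q⁻¹ * z3 := by rw [hq', mul_inv_rev, i0, i3, mul_assoc]
  have Cpq : Commute p q := by
    rw [hp]; exact comm_of_invert I0q I1q
  -- the four families
  have A0' : T0 q = T1 q := by rw [hq]; exact A0
  have A1 : T1 p = T2 p := by
    have := congrArg ξ A0'
    rw [hξ0, hξ1, ξq, map_inv, map_inv, inv_inj] at this
    exact this
  have A2 : T2 q = T3 q := by
    have := congrArg ξ A1
    rwa [hξ1, hξ2, ξp] at this
  have A3 : T3 p = T0 p := by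
    have := congrArg ξ A2
    rw [hξ2, hξ3, ξq, map_inv, map_inv, inv_inj] at this
    exact this
  obtain ⟨p1, hp1⟩ : ∃ a, a = T0 p := ⟨_, rfl⟩
  obtain ⟨p2, hp2⟩ : ∃ a, a = T1 p := ⟨_, rfl⟩
  obtain ⟨q1, hq1⟩ : ∃ a, a = T0 q := ⟨_, rfl⟩
  obtain ⟨q2, hq2⟩ : ∃ a, a = T2 q := ⟨_, rfl⟩
  have hp1' : p1 = T3 p := by rw [hp1, A3]
  have hp2' : p2 = T2 p := by rw [hp2, A1]
  have hq1' : q1 = T1 q := by rw [hq1, A0']
  have hq2' : q2 = T3 q := by rw [hq2, A2]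
  have ξp1 : ξ p1 = q1 := by rw [hp1, hξ0, ξp, hq1']
  have ξp2 : ξ p2 = q2 := by rw [hp2, hξ1, ξp, hq2]
  have ξq1 : ξ q1 = p2⁻¹ := by rw [hq1, hξ0, ξq, map_inv, hp2]
  have ξq2 : ξ q2 = p1⁻¹ := by rw [hq2, hξ2, ξq, map_inv, hp1']
  have I0p1 : z0 * p1 = p1⁻¹ * z0 := by
    have := congrArg T0 I0p
    rwa [map_mul, map_mul, map_inv, f0, ← hp1] at this
  have I0q1 : z0 * q1 = q1⁻¹ * z0 := by
    have := congrArg T0 I0q
    rwa [map_mul, map_mul, map_inv, f0, ← hq1] at this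
  have I1p2 : z1 * p2 = p2⁻¹ * z1 := by
    have := congrArg T1 I1p
    rwa [map_mul, map_mul, map_inv, f1, ← hp2] at this
  have I1q1 : z1 * q1 = q1⁻¹ * z1 := by
    have := congrArg T1 I1q
    rwa [map_mul, map_mul, map_inv, f1, ← hq1'] at this
  have I2p2 : z2 * p2 = p2⁻¹ * z2 := by
    have := congrArg T2 I2p
    rwa [map_mul, map_mul, map_inv, f2, ← hp2'] at this
  have I2q2 : z2 * q2 = q2⁻¹ * z2 := by
    have := congrArg T2 I2q
    rwa [map_mul, map_mul, map_inv, f2, ← hq2] at this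
  have I3p1 : z3 * p1 = p1⁻¹ * z3 := by
    have := congrArg T3 I3p
    rwa [map_mul, map_mul, map_inv, f3, ← hp1'] at this
  have I3q2 : z3 * q2 = q2⁻¹ * z3 := by
    have := congrArg T3 I3q
    rwa [map_mul, map_mul, map_inv, f3, ← hq2'] at this
  have Cp1q1 : Commute p1 q1 := by
    have := Cpq.map T0; rwa [← hp1, ← hq1] at this
  have Cp1q2 : Commute p1 q2 := by
    have := Cpq.map T3; rwa [← hp1', ← hq2'] at this
  have Cp2q1 : Commute p2 q1 := by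
    have := Cpq.map T1; rwa [← hp2, ← hq1'] at this
  have Cp2q2 : Commute p2 q2 := by
    have := Cpq.map T2; rwa [← hp2', ← hq2] at this
  have Cpq1 : Commute p q1 := by rw [hp]; exact comm_of_invert I0q1 I1q1
  have Cpq2 : Commute p q2 := by rw [hp']; exact comm_of_invert I3q2 I2q2
  have Cqp1 : Commute q p1 := by rw [hq']; exact comm_of_invert I0p1 I3p1
  have Cqp2 : Commute q p2 := by rw [hq]; exact comm_of_invert I1p2 I2p2
  -- images of the z_i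
  have T0z3 : T0 z3 = z0 * q1 := by
    have : q1 = z0 * T0 z3 := by rw [hq1, hq', map_mul, f0]
    rw [this, cancel_sq s0]
  have T0z2 : T0 z2 = q1⁻¹ * z0 * p1 := by
    have : p1 = z0 * q1 * T0 z2 := by rw [hp1, hp', map_mul, T0z3]
    rw [this]; simp only [mul_assoc, cancel_sq s0, inv_mul_cancel_left]
  have T1z0 : T1 z0 = p2 * z1 := by
    have : p2 = T1 z0 * z1 := by rw [hp2, hp, map_mul, f1]
    rw [this, mul_assoc, s1, mul_one]
  have T1z2 : T1 z2 = z1 * q1 := by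
    have : q1 = z1 * T1 z2 := by rw [hq1', hq, map_mul, f1]
    rw [this, cancel_sq s1]
  have T2z1 : T2 z1 = q2 * z2 := by
    have : q2 = T2 z1 * z2 := by rw [hq2, hq, map_mul, f2]
    rw [this, mul_assoc, s2, mul_one]
  have T2z0 : T2 z0 = p2 * z2 * q2⁻¹ := by
    have : p2 = T2 z0 * (q2 * z2) := by rw [hp2', hp, map_mul, T2z1]
    rw [this]; simp only [mul_assoc, s2, mul_one, mul_inv_cancel]
  have T3z0 : T3 z0 = q2 * z3 := by
    have : q2 = T3 z0 * z3 := by rw [hq2', hq', map_mul, f3]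
    rw [this, mul_assoc, s3, mul_one]
  have T3z2 : T3 z2 = z3 * p1 := by
    have : p1 = z3 * T3 z2 := by rw [hp1', hp', map_mul, f3]
    rw [this, cancel_sq s3]
  have T3z1 : T3 z1 = z3 * q2⁻¹ * p1 := by
    have : p1 = q2 * z3 * T3 z1 := by rw [hp1', hp, map_mul, T3z0]
    rw [this]; simp only [mul_assoc, inv_mul_cancel_left, cancel_sq s3]
  -- E2
  have E2 : p1 * q1 * q2 * p2 = 1 := by
    have h := R3
    rw [T2z0, T0z2] at h
    have a1 : z2 * p2 * z2 = p2⁻¹ := by rw [I2p2, mul_assoc, s2, mul_one]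
    have a2 : z0 * p1 * z0 = p1⁻¹ := by rw [I0p1, mul_assoc, s0, mul_one]
    have h2 : (z2 * p2 * z2) * q2⁻¹ * q1⁻¹ * (z0 * p1 * z0) = 1 := by
      simpa only [mul_assoc] using h
    rw [a1, a2] at h2
    have := congrArg (·⁻¹) h2
    simpa [mul_assoc] using this
  have E1 : q2 * q1 = p1 * p2 := by
    have h := congrArg ξ E2
    rw [map_mul, map_mul, map_mul, ξp1, ξq1, ξq2, ξp2, map_one] at h
    -- q1 * p2⁻¹ * p1⁻¹ * q2 = 1
    have h2 : q2 * (q1 * p2⁻¹ * p1⁻¹ * q2) * q2⁻¹ = 1 := by rw [h]; simp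
    have h3 : q2 * q1 * (p1 * p2)⁻¹ = 1 := by simpa [mul_assoc] using h2
    exact mul_inv_eq_one.mp h3
  have Cq : Commute q2 q1 := by
    have h : Commute (q2 * q1) q1 := by rw [E1]; exact Cp1q1.mul_left Cp2q1
    have h' : q2 * q1 * q1 = q1 * (q2 * q1) := h
    rw [← mul_assoc] at h'
    exact mul_right_cancel h'
  have Cp : Commute p1 p2 := by
    have h : Commute (p1 * p2) p1 := by rw [← E1]; exact (Cp1q2.symm).mul_left Cp1q1.symm
    have h' : p1 * p2 * p1 = p1 * (p1 * p2) := h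
    rw [mul_assoc] at h'
    exact (mul_left_cancel h').symm
  obtain ⟨π, hπ⟩ : ∃ a, a = p1 * p2 := ⟨_, rfl⟩
  have hπq : π = q2 * q1 := by rw [hπ, E1]
  have hπ2 : π * π = 1 := by
    have h : p1 * (q1 * q2) * p2 = 1 := by simpa [mul_assoc] using E2
    rw [← Cq.eq, E1] at h
    -- p1 * (p1 * p2) * p2 = 1
    rw [hπ]
    calc p1 * p2 * (p1 * p2) = p1 * (p2 * p1) * p2 := by simp only [mul_assoc]
      _ = p1 * (p1 * p2) * p2 := by rw [Cp.eq]
      _ = 1 := h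
  have iπ : π⁻¹ = π := inv_of_sq hπ2
  have Cpπ : Commute p π := by rw [hπq]; exact Cpq2.mul_right Cpq1
  -- R5
  obtain ⟨a, ha⟩ : ∃ a, a = T0 p2 := ⟨_, rfl⟩
  have hJ : a = p2 * p⁻¹ * p1 := by
    have h := J1
    rw [← hp, ← hp2', ← ha, ← hp1] at h
    -- p2⁻¹ * a * p1⁻¹ * p = 1
    have h2 : p2 * (p2⁻¹ * a * p1⁻¹ * p) * (p⁻¹ * p1) = p2 * 1 * (p⁻¹ * p1) := by rw [h]
    simpa [mul_assoc] using h2
  have hR5 : z3 * p1 * a * z3 * q2⁻¹ * p1 * z1 * q1 * z0 = 1 := by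
    have h := R5
    rw [T1z0, map_mul, T3z1, T3z2, T1z2, hp2', h32, ← hp2, ← ha] at h
    simpa [mul_assoc] using h
  obtain ⟨ρ, hρ⟩ : ∃ r, r = z3 * π * z3 := ⟨_, rfl⟩
  have Cpρ : Commute p ρ := by
    rw [hρ]
    have h1 : p * z3 = z3 * p⁻¹ := (invert_inv I3p).symm
    have h2 : p⁻¹ * z3 = z3 * p := I3p.symm
    change p * (z3 * π * z3) = z3 * π * z3 * p
    calc p * (z3 * π * z3) = (p * z3) * π * z3 := by simp only [mul_assoc]
      _ = z3 * (p⁻¹ * π) * z3 := by rw [h1]; simp only [mul_assoc]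
      _ = z3 * (π * p⁻¹) * z3 := by rw [Cpπ.inv_left.eq]
      _ = z3 * π * (p⁻¹ * z3) := by simp only [mul_assoc]
      _ = z3 * π * z3 * p := by rw [h2]; simp only [mul_assoc]
  have b1 : z3 * (p1 * a) * z3 = ρ * p * p1⁻¹ := by
    have e1 : p1 * a = π * p⁻¹ * p1 := by rw [hJ, hπ]; simp only [mul_assoc]
    have e2 : z3 * p⁻¹ = p * z3 := invert_inv I3p
    rw [e1]
    calc z3 * (π * p⁻¹ * p1) * z3 = z3 * π * (z3 * (z3 * p⁻¹)) * p1 * z3 := by
          rw [cancel_sq s3]; simp only [mul_assoc]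
      _ = (z3 * π * z3) * p * (z3 * p1) * z3 := by rw [e2]; simp only [mul_assoc]
      _ = (z3 * π * z3) * p * p1⁻¹ * (z3 * z3) := by rw [I3p1]; simp only [mul_assoc]
      _ = ρ * p * p1⁻¹ := by rw [s3, mul_one, hρ]
  have b2 : z3 * (p1 * a) * z3 = q1 * p * p1⁻¹ * q2 := by
    have h : (z3 * (p1 * a) * z3) * (q2⁻¹ * p1 * (z1 * q1 * z0)) = 1 := by
      simpa [mul_assoc] using hR5
    have e : z1 * q1 * z0 = p⁻¹ * q1⁻¹ := by
      have : q1 * z0 = z0 * q1⁻¹ := (invert_inv I0q1).symm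
      rw [mul_assoc, this, ← mul_assoc, hp, mul_inv_rev, i0, i1]
    rw [e] at h
    have := eq_inv_of_mul_eq_one_left h
    rw [this]; simp [mul_assoc]
  have hρπ : ρ = π := by
    have h : p * (ρ * p1⁻¹) = p * (p1⁻¹ * π) := by
      calc p * (ρ * p1⁻¹) = ρ * p * p1⁻¹ := by rw [← mul_assoc, Cpρ.eq]
        _ = q1 * p * p1⁻¹ * q2 := by rw [← b1, b2]
        _ = p * (q1 * p1⁻¹) * q2 := by rw [← Cpq1.eq]; simp only [mul_assoc]
        _ = p * (p1⁻¹ * q1) * q2 := by rw [← Cp1q1.inv_left.eq]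
        _ = p * (p1⁻¹ * (q1 * q2)) := by simp only [mul_assoc]
        _ = p * (p1⁻¹ * π) := by rw [← Cq.eq, hπq]
    have h2 := mul_left_cancel h
    have h3 : ρ * p1⁻¹ = π * p1⁻¹ := by
      rw [h2]
      have : Commute p1 π := by rw [hπ]; exact (Commute.refl p1).mul_right Cp
      exact this.inv_left.eq
    exact mul_right_cancel h3
  -- p commutes with p2
  have hz3 : z3 = p * z2 := by rw [hp', mul_assoc, s2, mul_one]
  have hz3' : z3 = z2 * p⁻¹ := by rw [hp', mul_inv_rev, i2, i3, cancel_sq s2]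
  have c1 : z3 * p2 * z3 = p * p2⁻¹ * p⁻¹ := by
    calc z3 * p2 * z3 = (p * z2) * p2 * (z2 * p⁻¹) := by rw [← hz3, ← hz3']
      _ = p * (z2 * p2) * z2 * p⁻¹ := by simp only [mul_assoc]
      _ = p * p2⁻¹ * (z2 * z2) * p⁻¹ := by rw [I2p2]; simp only [mul_assoc]
      _ = p * p2⁻¹ * p⁻¹ := by rw [s2, mul_one]
  have c2 : p1⁻¹ * (z3 * p2 * z3) = π := by
    rw [← hρπ, hρ, hπ]
    calc p1⁻¹ * (z3 * p2 * z3) = (p1⁻¹ * z3) * p2 * z3 := by simp only [mul_assoc]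
      _ = (z3 * p1) * p2 * z3 := by rw [← I3p1]
      _ = z3 * (p1 * p2) * z3 := by simp only [mul_assoc]
  have Cpp2 : Commute p p2 := by
    rw [c1] at c2
    have h : p * p2⁻¹ * p⁻¹ = p1 * π := by rw [← c2]; simp
    have h2 := congrArg (·⁻¹) h
    simp only [mul_inv_rev, inv_inv, iπ] at h2
    -- p * (p2 * p⁻¹) = π * p1⁻¹
    have h3 : π * p1⁻¹ = p2 := by rw [hπ, Cp.eq, mul_assoc, mul_inv_cancel, mul_one]
    rw [h3] at h2
    change p * p2 = p2 * p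
    calc p * p2 = p * (p2 * p⁻¹) * p := by simp [mul_assoc]
      _ = p2 * p := by rw [h2]
  have hp1π : p1 = π * p2⁻¹ := by rw [hπ, mul_assoc, mul_inv_cancel, mul_one]
  have Cpp1 : Commute p p1 := by rw [hp1π]; exact Cpπ.mul_right Cpp2.inv_right
  have Cqq2 : Commute q q2 := by have := Cpp2.map ξ; rwa [ξp, ξp2] at this
  have Cqq1 : Commute q q1 := by have := Cpp1.map ξ; rwa [ξp, ξp1] at this
  -- F2
  have hR6 : q1⁻¹ * z0 * (p1⁻¹ * z3) * (q2 * z2) * (p2 * z1) = 1 := by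
    have h := R6
    simp only [T1z0, map_mul, map_inv, ξp2, x1, ξq2, x2, ξp1, x3] at h
    simpa [mul_assoc] using h
  have F2 : q1⁻¹ * p1 * q2 * p2⁻¹ = 1 := by
    have e1 : z0 * p1⁻¹ = p1 * z0 := invert_inv I0p1
    have h : q1⁻¹ * p1 * q * q2 * p2⁻¹ * q⁻¹ = 1 := by
      calc q1⁻¹ * p1 * q * q2 * p2⁻¹ * q⁻¹
          = q1⁻¹ * (p1 * z0) * z3 * q2 * (p2⁻¹ * z2) * z1 := by
            rw [hq', mul_inv_rev, i0, i3, ← hq']
            have : z3 * z0 = z2 * z1 := by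
              have h1 : (z0 * z3)⁻¹ = (z1 * z2)⁻¹ := by rw [← hq', hq]
              simpa [i0, i1, i2, i3] using h1
            rw [this, hq']; simp only [mul_assoc]
        _ = q1⁻¹ * (z0 * p1⁻¹) * z3 * q2 * (z2 * p2) * z1 := by rw [e1, I2p2]
        _ = q1⁻¹ * z0 * (p1⁻¹ * z3) * (q2 * z2) * (p2 * z1) := by simp only [mul_assoc]
        _ = 1 := hR6
    have c : Commute q (q2 * p2⁻¹) := Cqq2.mul_right Cqp2.inv_right
    calc q1⁻¹ * p1 * q2 * p2⁻¹ = q1⁻¹ * p1 * (q2 * p2⁻¹ * q) * q⁻¹ := by simp [mul_assoc]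
      _ = q1⁻¹ * p1 * (q * (q2 * p2⁻¹)) * q⁻¹ := by rw [c.eq]
      _ = 1 := by simpa [mul_assoc] using h
  have hsq1 : p1 * p1 = q1 * q1 := by
    -- p2 = p1⁻¹ π, q2 = π q1⁻¹
    have e1 : p2⁻¹ = π * p1 := by
      rw [← iπ, hπ, mul_inv_rev]; simp
    have e2 : q2 = π * q1⁻¹ := by rw [hπq, mul_assoc, mul_inv_cancel, mul_one]
    have C1 : Commute q1 π := by rw [hπq]; exact Cq.symm.mul_right (Commute.refl q1)
    have C2 : Commute p1 π := by rw [hπ]; exact (Commute.refl p1).mul_right Cp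
    rw [e1, e2] at F2
    have h : q1⁻¹ * (p1 * p1) * q1⁻¹ = 1 := by
      calc q1⁻¹ * (p1 * p1) * q1⁻¹
          = q1⁻¹ * p1 * (p1 * q1⁻¹) * (π * π) := by rw [hπ2]; simp only [mul_assoc, mul_one]
        _ = q1⁻¹ * p1 * (q1⁻¹ * p1) * (π * π) := by rw [Cp1q1.inv_right.eq]
        _ = q1⁻¹ * p1 * (q1⁻¹ * (p1 * π)) * π := by simp only [mul_assoc]
        _ = q1⁻¹ * p1 * (q1⁻¹ * (π * p1)) * π := by rw [C2.eq]
        _ = q1⁻¹ * p1 * ((q1⁻¹ * π) * (p1 * π)) := by simp only [mul_assoc]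
        _ = q1⁻¹ * p1 * ((π * q1⁻¹) * (π * p1)) := by rw [C1.inv_left.eq, C2.eq]
        _ = 1 := by simpa [mul_assoc] using F2
    have h2 : q1 * (q1⁻¹ * (p1 * p1) * q1⁻¹) * q1 = q1 * 1 * q1 := by rw [h]
    simpa [mul_assoc] using h2
  have T0p1 : T0 p1 = p := by rw [hp1, h00]
  have T0q1 : T0 q1 = q := by rw [hq1, h00]
  have hsq : p * p = q * q := by
    have := congrArg T0 hsq1
    rwa [map_mul, map_mul, T0p1, T0q1] at this
  have hsq' : q * q = p⁻¹ * p⁻¹ := by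
    have := congrArg ξ hsq
    rwa [map_mul, map_mul, ξp, ξq] at this
  have hr : z0 * z2 = p * q := by
    rw [hp, hq, mul_assoc, cancel_sq s1]
  have hr2 : (z0 * z2) * (z0 * z2) = 1 := by
    rw [hr]
    calc p * q * (p * q) = p * (q * p) * q := by simp only [mul_assoc]
      _ = p * (p * q) * q := by rw [Cpq.eq]
      _ = (p * p) * (q * q) := by simp only [mul_assoc]
      _ = 1 := by rw [hsq']; simp [mul_assoc]
  have : ((z0 * z2) * (z0 * z2))⁻¹ = (z2 * z0) * (z2 * z0) := by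
    simp [mul_inv_rev, i0, i2, mul_assoc]
  rw [← this, hr2, inv_one]

end core

end Pool.Agent.Helper3.FOB
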