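import Mathlib

/-!
Definitions for full-order presentations of free Burnside groups.
-/

namespace Pool.Agent.Helper3.FOB

/-- The subgroup of the free group on `X` generated by all `n`-th powers. -/
def powSubgroup (X : Type*) (n : ℕ) : Subgroup (FreeGroup X) :=
  Subgroup.closure {g | ∃ w : FreeGroup X, g = w ^ n}

/-- `w` has full order `n` in the free Burnside group `B(X, n)`: no power `w ^ d` with `d` a
divisor of `n` different from `n` lies in the subgroup generated by the `n`-th powers. -/
def FullOrder (X : Type*) (n : ℕ) (w : FreeGroup X) : Prop :=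
  ∀ d : ℕ, d ∣ n → d ≠ n → w ^ d ∉ powSubgroup X n

/-- The relations `v ^ n = 1`, `v ∈ V`, present the free Burnside group `B(X, n)` and every
`v ∈ V` has order exactly `n` in it. -/
def IsFullOrderPresentation (X : Type*) (n : ℕ) (V : Set (FreeGroup X)) : Prop :=
  Subgroup.normalClosure {g | ∃ v ∈ V, g = v ^ n} = powSubgroup X n ∧
    ∀ v ∈ V, FullOrder X n v

end Pool.Agent.Helper3.FOB
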