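import Pool.Agent.Helper3.FOB.Vanish

/-!
The finite case: a finite normal subgroup `H` generated by the squares of its elements,
such that suitable cosets of `H` consist of elements whose fourth power is trivial, is trivial.
-/

namespace Pool.Agent.Helper3.FOB

section
variable {G : Type*} [Group G]

/-- Conjugation by an element normalising `V` as an endomorphism of `V`. -/
def conjHom (V : Subgroup G) (g : G) (hg : ∀ v ∈ V, g * v * g⁻¹ ∈ V) : V →* V where
  toFun v := ⟨g * v * g⁻¹, hg v v.2⟩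
  map_one' := by ext; simp
  map_mul' a b := by ext; simp [mul_assoc]

theorem norm_rel {v g : G} (h1 : g ^ 4 = 1) (h2 : (v * g) ^ 4 = 1) :
    v * (g * v * g⁻¹) * (g * (g * v * g⁻¹) * g⁻¹) *
      (g * (g * (g * v * g⁻¹) * g⁻¹) * g⁻¹) = 1 := by
  have e : (v * g) ^ 4 = v * (g * v * g⁻¹) * (g * (g * v * g⁻¹) * g⁻¹) *
      (g * (g * (g * v * g⁻¹) * g⁻¹) * g⁻¹) * g ^ 4 := by
    have p4 : ∀ a : G, a ^ 4 = a * (a * (a * a)) := fun a => by
      simp only [pow_succ, pow_zero, one_mul, mul_assoc]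
    rw [p4, p4]; simp only [mul_assoc, inv_mul_cancel_left]
  rw [e, h1, mul_one] at h2
  exact h2

/-- the abelian group step -/
theorem abelian_step (H V : Subgroup G) [H.Normal] (hVH : V ≤ H)
    (hcomm : ∀ u ∈ V, ∀ v ∈ V, u * v = v * u)
    (hodd : ∀ v ∈ V, v * v = 1 → v = 1) (a b : G)
    (ha : ∀ v ∈ V, a * v * a⁻¹ ∈ V) (hb : ∀ v ∈ V, b * v * b⁻¹ ∈ V)
    (h1 : ∀ h ∈ H, (h * a) ^ 4 = 1) (h2 : ∀ h ∈ H, (h * b) ^ 4 = 1)
    (h3 : ∀ h ∈ H, (h * (a * a * b)) ^ 4 = 1)
    (h4 : ∀ h ∈ H, (h * (a * (b * b))) ^ 4 = 1)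
    (h5 : ∀ h ∈ H, (h * (a * a * (b * b))) ^ 4 = 1) : ∀ v ∈ V, v = 1 := by
  let I : CommGroup V :=
    { (inferInstance : Group V) with
      mul_comm := fun u v => Subtype.ext (hcomm u u.2 v v.2) }
  let α : V →* V := conjHom V a ha
  let β : V →* V := conjHom V b hb
  have hαc : ∀ v : V, ((α v : V) : G) = a * v * a⁻¹ := fun v => rfl
  have hβc : ∀ v : V, ((β v : V) : G) = b * v * b⁻¹ := fun v => rfl
  have key := vanish (A := Additive V) (MonoidHom.toAdditive α) (MonoidHom.toAdditive β)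
    (by
      intro v hv
      have h : (Additive.toMul v : V) * Additive.toMul v = 1 := hv
      have h' := congrArg (Subtype.val) h
      have := hodd (Additive.toMul v : V) (Additive.toMul v : V).2 (by simpa using h')
      exact Subtype.ext this)
    (by
      intro v
      have hv := (Additive.toMul v : V).2
      have h := norm_rel (v := ((Additive.toMul v : V) : G)) (g := a)
        (by simpa using h1 1 H.one_mem) (h1 _ (hVH hv))
      exact Subtype.ext h)
    (by
      intro v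
      have hv := (Additive.toMul v : V).2
      have h := norm_rel (v := ((Additive.toMul v : V) : G)) (g := b)
        (by simpa using h2 1 H.one_mem) (h2 _ (hVH hv))
      exact Subtype.ext h)
    (by
      intro v
      have hv := (Additive.toMul v : V).2
      have h := norm_rel (v := ((Additive.toMul v : V) : G)) (g := a * a * b)
        (by simpa using h3 1 H.one_mem) (h3 _ (hVH hv))
      apply Subtype.ext
      refine Eq.trans ?_ h
      change ((Additive.toMul v : V) : G) * (a * (a * (b * (Additive.toMul v : V) * b⁻¹) * a⁻¹) * a⁻¹) *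
        (a * (a * (b * (a * (a * (b * (Additive.toMul v : V) * b⁻¹) * a⁻¹) * a⁻¹) * b⁻¹) * a⁻¹) * a⁻¹) *
        (a * (a * (b * (a * (a * (b * (a * (a * (b * (Additive.toMul v : V) * b⁻¹) * a⁻¹) * a⁻¹) * b⁻¹) * a⁻¹) * a⁻¹) * b⁻¹) * a⁻¹) * a⁻¹) = _
      simp only [mul_assoc, mul_inv_rev])
    (by
      intro v
      have hv := (Additive.toMul v : V).2
      have h := norm_rel (v := ((Additive.toMul v : V) : G)) (g := a * (b * b))
        (by simpa using h4 1 H.one_mem) (h4 _ (hVH hv))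
      apply Subtype.ext
      refine Eq.trans ?_ h
      change ((Additive.toMul v : V) : G) * (a * (b * (b * (Additive.toMul v : V) * b⁻¹) * b⁻¹) * a⁻¹) *
        (a * (b * (b * (a * (b * (b * (Additive.toMul v : V) * b⁻¹) * b⁻¹) * a⁻¹) * b⁻¹) * b⁻¹) * a⁻¹) *
        (a * (b * (b * (a * (b * (b * (a * (b * (b * (Additive.toMul v : V) * b⁻¹) * b⁻¹) * a⁻¹) * b⁻¹) * b⁻¹) * a⁻¹) * b⁻¹) * b⁻¹) * a⁻¹) = _
      simp only [mul_assoc, mul_inv_rev])
    (by
      intro v
      have hv := (Additive.toMul v : V).2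
      have h := norm_rel (v := ((Additive.toMul v : V) : G)) (g := a * a * (b * b))
        (by simpa using h5 1 H.one_mem) (h5 _ (hVH hv))
      apply Subtype.ext
      refine Eq.trans ?_ h
      change ((Additive.toMul v : V) : G) *
        (a * (a * (b * (b * (Additive.toMul v : V) * b⁻¹) * b⁻¹) * a⁻¹) * a⁻¹) *
        (a * (a * (b * (b * (a * (a * (b * (b * (Additive.toMul v : V) * b⁻¹) * b⁻¹) * a⁻¹) * a⁻¹) * b⁻¹) * b⁻¹) * a⁻¹) * a⁻¹) *
        (a * (a * (b * (b * (a * (a * (b * (b * (a * (a * (b * (b * (Additive.toMul v : V) * b⁻¹) * b⁻¹) * a⁻¹) * a⁻¹) * b⁻¹) * b⁻¹) * a⁻¹) * a⁻¹) * b⁻¹) * b⁻¹) * a⁻¹) * a⁻¹) = _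
      simp only [mul_assoc, mul_inv_rev])
  intro v hv
  have h := key (Additive.ofMul (⟨v, hv⟩ : V))
  have h' : (⟨v, hv⟩ : V) = 1 := h
  exact congrArg Subtype.val h'

/-- A finite group generated by the squares of its elements which is nontrivial has order
divisible by an odd prime. -/
theorem exists_odd_prime (H : Subgroup G) [Finite H]
    (hsq : H ≤ Subgroup.closure {g | ∃ h ∈ H, g = h * h}) (hne : H ≠ ⊥) :
    ∃ q : ℕ, q.Prime ∧ q ≠ 2 ∧ q ∣ Nat.card H := by
  by_contra hcon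
  push Not at hcon
  have hpos : Nat.card H ≠ 0 := Nat.card_pos.ne'
  have hpow := Nat.eq_prime_pow_of_unique_prime_dvd (p := 2) hpos (by
    intro d hd hdvd
    by_contra h2
    exact hcon d hd h2 hdvd)
  obtain ⟨k, hk⟩ : ∃ k, Nat.card H = 2 ^ k := ⟨_, hpow⟩
  rcases k with _ | k
  · apply hne
    rw [pow_zero] at hk
    exact (Subgroup.card_eq_one).mp hk
  · have : Fact (Nat.Prime 2) := ⟨Nat.prime_two⟩
    obtain ⟨K, hK⟩ := Sylow.exists_subgroup_card_pow_prime (G := H) 2 (n := k)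
      (by rw [hk]; exact pow_dvd_pow 2 (Nat.le_succ k))
    have hidx : K.index = 2 := by
      have h := K.card_mul_index
      rw [hK, hk, pow_succ] at h
      exact Nat.eq_of_mul_eq_mul_left (by positivity) h
    have hle : H ≤ K.map H.subtype := by
      refine hsq.trans ?_
      rw [Subgroup.closure_le]
      rintro g ⟨h, hh, rfl⟩
      refine ⟨(⟨h, hh⟩ : H) * ⟨h, hh⟩, Subgroup.mul_self_mem_of_index_two hidx _, rfl⟩
    have htop : K = ⊤ := by
      rw [eq_top_iff]
      intro x _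
      obtain ⟨y, hy, hyx⟩ := hle x.2
      have : y = x := Subtype.ext hyx
      rw [← this]; exact hy
    rw [htop, Subgroup.index_top] at hidx
    exact absurd hidx (by norm_num)

theorem finite_case [Finite G] (H : Subgroup G) [H.Normal]
    (hsq : H ≤ Subgroup.closure {g | ∃ h ∈ H, g = h * h}) (a b : G)
    (h1 : ∀ h ∈ H, (h * a) ^ 4 = 1) (h2 : ∀ h ∈ H, (h * b) ^ 4 = 1)
    (h3 : ∀ h ∈ H, (h * (a * a * b)) ^ 4 = 1)
    (h4 : ∀ h ∈ H, (h * (a * (b * b))) ^ 4 = 1)
    (h5 : ∀ h ∈ H, (h * (a * a * (b * b))) ^ 4 = 1) : H = ⊥ := by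
  by_contra hne
  obtain ⟨q, hq, hq2, hdvd⟩ := exists_odd_prime H hsq hne
  have : Fact q.Prime := ⟨hq⟩
  let Q : Sylow q H := default
  have hQne : (Q : Subgroup H) ≠ ⊥ := Q.ne_bot_of_dvd_card hdvd
  have : Nontrivial (Q : Subgroup H) := (Subgroup.nontrivial_iff_ne_bot _).mpr hQne
  have hcen : Nontrivial (Subgroup.center (Q : Subgroup H)) := Q.isPGroup'.center_nontrivial
  obtain ⟨c, hc⟩ := exists_ne (1 : Subgroup.center (Q : Subgroup H))
  let Q' : Subgroup G := (Q : Subgroup H).map H.subtype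
  let V : Subgroup G := Q' ⊓ Subgroup.centralizer (Q' : Set G)
  have hQ'H : Q' ≤ H := by
    rintro x ⟨y, _, rfl⟩
    exact y.2
  have hfr := Sylow.normalizer_sup_eq_top Q
  have hN : ∀ g : G, ∃ n ∈ Subgroup.normalizer ((Q' : Subgroup G) : Set G), ∃ h ∈ H, g = n * h := by
    intro g
    have hg : g ∈ Subgroup.normalizer (Q' : Set G) ⊔ H := by
      have : Subgroup.normalizer (Q' : Set G) ⊔ H = ⊤ := hfr
      rw [this]; trivial
    rw [Subgroup.mem_sup_of_normal_right] at hg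
    obtain ⟨n, hn, h, hh, e⟩ := hg
    exact ⟨n, hn, h, hh, e.symm⟩
  have hVnorm : ∀ n ∈ Subgroup.normalizer ((Q' : Subgroup G) : Set G), ∀ v ∈ V,
      n * v * n⁻¹ ∈ V := by
    intro n hn v hv
    have hn' := Subgroup.mem_normalizer_iff.mp hn
    refine Subgroup.mem_inf.mpr ⟨(hn' v).mp hv.1, ?_⟩
    rw [Subgroup.mem_centralizer_iff]
    intro u hu
    have hu' : n⁻¹ * u * n ∈ Q' := by
      rw [hn']
      simpa [mul_assoc] using hu
    have hcomm := (Subgroup.mem_centralizer_iff.mp hv.2) _ hu'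
    -- (n⁻¹ u n) v = v (n⁻¹ u n)
    calc u * (n * v * n⁻¹) = n * ((n⁻¹ * u * n) * v) * n⁻¹ := by simp [mul_assoc]
      _ = n * (v * (n⁻¹ * u * n)) * n⁻¹ := by rw [hcomm]
      _ = n * v * n⁻¹ * u := by simp [mul_assoc]
  have hVcomm : ∀ u ∈ V, ∀ v ∈ V, u * v = v * u := by
    intro u hu v hv
    exact (Subgroup.mem_centralizer_iff.mp hv.2) u hu.1
  have hVodd : ∀ v ∈ V, v * v = 1 → v = 1 := by
    intro v hv hvv
    obtain ⟨y, hy, rfl⟩ := hv.1
    obtain ⟨k, hk⟩ := Q.isPGroup' ⟨y, hy⟩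
    have hk' : y ^ (q ^ k) = 1 := by
      have := congrArg Subtype.val hk
      simpa using this
    have hy2 : y ^ 2 = 1 := by
      apply Subtype.ext
      have : (y : G) * y = 1 := hvv
      rw [pow_two]; exact this
    have hcop : Nat.Coprime 2 (q ^ k) := by
      apply Nat.Coprime.pow_right
      exact (Nat.coprime_primes Nat.prime_two hq).mpr (Ne.symm hq2)
    have h1 : orderOf y ∣ 1 := by
      rw [← Nat.Coprime.gcd_eq_one hcop]
      exact Nat.dvd_gcd (orderOf_dvd_of_pow_eq_one hy2) (orderOf_dvd_of_pow_eq_one hk')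
    have h2 : y = 1 := by
      rw [← orderOf_eq_one_iff]; exact Nat.dvd_one.mp h1
    rw [h2]; rfl
  obtain ⟨a', ha', ha2, ha2H, hae⟩ := hN a
  obtain ⟨b', hb', hb2, hb2H, hbe⟩ := hN b
  -- cosets
  have ha'' : a' = a * ha2⁻¹ := by rw [hae]; group
  have hb'' : b' = b * hb2⁻¹ := by rw [hbe]; group
  have hcoset : ∀ w w' : G, (QuotientGroup.mk w : G ⧸ H) = QuotientGroup.mk w' →
      (∀ h ∈ H, (h * w) ^ 4 = 1) → ∀ h ∈ H, (h * w') ^ 4 = 1 := by
    intro w w' hww hw h hh
    have hm : w' * w⁻¹ ∈ H := by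
      have : w⁻¹ * w' ∈ H := QuotientGroup.eq.mp hww
      have h2 := (inferInstance : H.Normal).conj_mem _ this w
      simpa [mul_assoc] using h2
    have := hw (h * (w' * w⁻¹)) (H.mul_mem hh hm)
    simpa [mul_assoc] using this
  have mka : (QuotientGroup.mk a : G ⧸ H) = QuotientGroup.mk a' := by
    rw [QuotientGroup.eq, ha'']; simpa using H.inv_mem ha2H
  have mkb : (QuotientGroup.mk b : G ⧸ H) = QuotientGroup.mk b' := by
    rw [QuotientGroup.eq, hb'']; simpa using H.inv_mem hb2H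
  have hV := abelian_step H V (inf_le_left.trans hQ'H) hVcomm hVodd a' b'
    (hVnorm a' ha') (hVnorm b' hb')
    (hcoset a a' mka h1) (hcoset b b' mkb h2)
    (hcoset _ _ (by simp only [QuotientGroup.mk_mul, mka, mkb]) h3)
    (hcoset _ _ (by simp only [QuotientGroup.mk_mul, mka, mkb]) h4)
    (hcoset _ _ (by simp only [QuotientGroup.mk_mul, mka, mkb]) h5)
  -- the central element gives a contradiction
  apply hc
  have hcV : (((c : (Q : Subgroup H)) : H) : G) ∈ V := by
    refine Subgroup.mem_inf.mpr ⟨⟨_, (c : (Q : Subgroup H)).2, rfl⟩, ?_⟩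
    rw [Subgroup.mem_centralizer_iff]
    rintro u ⟨y, hy, rfl⟩
    have := (Subgroup.mem_center_iff.mp c.2) (⟨y, hy⟩ : (Q : Subgroup H))
    exact congrArg (fun z : (Q : Subgroup H) => ((z : H) : G)) this
  have h := hV _ hcV
  apply Subtype.ext; apply Subtype.ext; apply Subtype.ext
  exact h

end

end Pool.Agent.Helper3.FOB
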