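import Pool.Agent.Helper3.FOB.Core

/-!
The key relation `(x^2 z)^4 = 1`, deduced from nine fourth powers.
-/

namespace Pool.Agent.Helper3.FOB

section
variable {G : Type*} [Group G]

theorem pow4 (a : G) : a ^ 4 = a * (a * (a * a)) := by
  simp only [pow_succ, pow_zero, one_mul, mul_assoc]

/-- The fourth power of `x * g` in terms of the conjugates of `g`. -/
theorem fourth_conj (x g : G) (hx : x ^ 4 = 1) (h : (x * g) ^ 4 = 1) :
    (x⁻¹ * (x⁻¹ * (x⁻¹ * g * x) * x) * x) * (x⁻¹ * (x⁻¹ * g * x) * x) * (x⁻¹ * g * x) * g = 1 := by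
  have e : (x * g) ^ 4 = x ^ 4 * ((x⁻¹ * (x⁻¹ * (x⁻¹ * g * x) * x) * x) *
      (x⁻¹ * (x⁻¹ * g * x) * x) * (x⁻¹ * g * x) * g) := by
    rw [pow4, pow4]; simp only [mul_assoc, mul_inv_cancel_left]
  rw [e, hx, one_mul] at h
  exact h

/-- `(X t)^4 = 1` for involutions gives `t X t X t = X t X`. -/
theorem dihedral_swap {X t : G} (hX : X * X = 1) (ht : t * t = 1) (h : (X * t) ^ 4 = 1) :
    t * X * t * X * t = X * t * X := by
  have iX := inv_of_sq hX
  have it := inv_of_sq ht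
  have h' : (X * t * X * t) * (X * t * X * t) = 1 := by
    have e : (X * t) ^ 4 = (X * t * X * t) * (X * t * X * t) := by
      rw [pow4]; simp only [mul_assoc]
    rw [← e, h]
  have h2 : X * t * X * t = (X * t * X * t)⁻¹ := eq_inv_of_mul_eq_one_left h'
  simp only [mul_inv_rev, iX, it] at h2
  -- X t X t = t (X (t X))
  calc t * X * t * X * t = (t * (X * (t * X))) * t := by simp only [mul_assoc]
    _ = (X * t * X * t) * t := by rw [← h2]
    _ = X * t * X := by rw [mul_assoc, ht, mul_one]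

theorem keyLemma (x t z : G) (ht : t * t = 1) (hz : z * z = 1) (htz : t * z = z * t)
    (h1 : x ^ 4 = 1) (h2 : (x * t) ^ 4 = 1) (h3 : (x * x * t) ^ 4 = 1)
    (h4 : (x * z) ^ 4 = 1) (h5 : (x * (t * z)) ^ 4 = 1)
    (h6 : (x * x * t * z) ^ 4 = 1)
    (h7 : (x * x * t * (z * (x⁻¹ * z * x))) ^ 4 = 1)
    (h8 : (x * x * (x⁻¹ * t * x) * z) ^ 4 = 1)
    (h9 : (x * ((x⁻¹ * t * x) * z * (x⁻¹ * t * x))) ^ 4 = 1) :
    (x * x * z) ^ 4 = 1 := by
  obtain ⟨X, hXdef⟩ : ∃ X, X = x * x := ⟨_, rfl⟩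
  have hX : X * X = 1 := by
    rw [hXdef, ← h1, pow4]; simp only [mul_assoc]
  have iX := inv_of_sq hX
  have it := inv_of_sq ht
  have iz := inv_of_sq hz
  obtain ⟨t1, ht1⟩ : ∃ a, a = x⁻¹ * t * x := ⟨_, rfl⟩
  obtain ⟨t2, ht2⟩ : ∃ a, a = x⁻¹ * t1 * x := ⟨_, rfl⟩
  obtain ⟨t3, ht3⟩ : ∃ a, a = x⁻¹ * t2 * x := ⟨_, rfl⟩
  obtain ⟨z1, hz1⟩ : ∃ a, a = x⁻¹ * z * x := ⟨_, rfl⟩
  obtain ⟨z2, hz2⟩ : ∃ a, a = x⁻¹ * z1 * x := ⟨_, rfl⟩
  obtain ⟨z3, hz3⟩ : ∃ a, a = x⁻¹ * z2 * x := ⟨_, rfl⟩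
  have ht4 : x⁻¹ * t3 * x = t := by
    have e : x⁻¹ * t3 * x = (x ^ 4)⁻¹ * t * x ^ 4 := by
      rw [ht3, ht2, ht1, pow4]; simp only [mul_assoc, mul_inv_rev]
    rw [e, h1]; simp
  have hz4 : x⁻¹ * z3 * x = z := by
    have e : x⁻¹ * z3 * x = (x ^ 4)⁻¹ * z * x ^ 4 := by
      rw [hz3, hz2, hz1, pow4]; simp only [mul_assoc, mul_inv_rev]
    rw [e, h1]; simp
  have conj_sq : ∀ a : G, a * a = 1 → (x⁻¹ * a * x) * (x⁻¹ * a * x) = 1 := by
    intro a ha
    calc (x⁻¹ * a * x) * (x⁻¹ * a * x) = x⁻¹ * (a * a) * x := by group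
      _ = 1 := by rw [ha]; group
  have st1 : t1 * t1 = 1 := by rw [ht1]; exact conj_sq _ ht
  have st2 : t2 * t2 = 1 := by rw [ht2]; exact conj_sq _ st1
  have st3 : t3 * t3 = 1 := by rw [ht3]; exact conj_sq _ st2
  have sz1 : z1 * z1 = 1 := by rw [hz1]; exact conj_sq _ hz
  have sz2 : z2 * z2 = 1 := by rw [hz2]; exact conj_sq _ sz1
  have sz3 : z3 * z3 = 1 := by rw [hz3]; exact conj_sq _ sz2
  have it1 := inv_of_sq st1
  have it2 := inv_of_sq st2
  have it3 := inv_of_sq st3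
  have iz1 := inv_of_sq sz1
  have iz2 := inv_of_sq sz2
  have iz3 := inv_of_sq sz3
  have conj_comm : ∀ a b : G, a * b = b * a →
      (x⁻¹ * a * x) * (x⁻¹ * b * x) = (x⁻¹ * b * x) * (x⁻¹ * a * x) := by
    intro a b hab
    calc (x⁻¹ * a * x) * (x⁻¹ * b * x) = x⁻¹ * (a * b) * x := by group
      _ = x⁻¹ * (b * a) * x := by rw [hab]
      _ = (x⁻¹ * b * x) * (x⁻¹ * a * x) := by group
  have c1 : t1 * z1 = z1 * t1 := by rw [ht1, hz1]; exact conj_comm _ _ htz
  have c2 : t2 * z2 = z2 * t2 := by rw [ht2, hz2]; exact conj_comm _ _ c1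
  have c3 : t3 * z3 = z3 * t3 := by rw [ht3, hz3]; exact conj_comm _ _ c2
  -- from (x t)^4
  have rt : t3 * t2 * t1 * t = 1 := by
    have := fourth_conj x t h1 h2
    rwa [← ht1, ← ht2, ← ht3] at this
  have rz : z3 * z2 * z1 * z = 1 := by
    have := fourth_conj x z h1 h4
    rwa [← hz1, ← hz2, ← hz3] at this
  have conj_mul : ∀ a b : G, x⁻¹ * (a * b) * x = (x⁻¹ * a * x) * (x⁻¹ * b * x) := by
    intro a b; group
  have rtz : (t3 * z3) * (t2 * z2) * (t1 * z1) * (t * z) = 1 := by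
    have := fourth_conj x (t * z) h1 h5
    have w1 : x⁻¹ * (t * z) * x = t1 * z1 := by rw [conj_mul, ← ht1, ← hz1]
    have w2 : x⁻¹ * (t1 * z1) * x = t2 * z2 := by rw [conj_mul, ← ht2, ← hz2]
    have w3 : x⁻¹ * (t2 * z2) * x = t3 * z3 := by rw [conj_mul, ← ht3, ← hz3]
    rwa [w1, w2, w3] at this
  have e32 : t3 * t2 = t * t1 := by
    have : t3 * t2 = (t1 * t)⁻¹ := by
      apply eq_inv_of_mul_eq_one_left; rw [← rt]; simp only [mul_assoc]
    rw [this, mul_inv_rev, it, it1]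
  have et3 : t3 = t * t1 * t2 := by
    rw [← e32, mul_assoc, st2, mul_one]
  have ez3 : z3 = z2 * z1 * z := by
    have : z3⁻¹ = z2 * z1 * z := by
      apply inv_eq_of_mul_eq_one_right; rw [← rz]; simp only [mul_assoc]
    rwa [iz3] at this
  -- A0
  have A0 : t * (z1 * z2) * t⁻¹ = t1 * (z1 * z2) * t1⁻¹ := by
    rw [it, it1]
    have h : z2 * z1 * z * (t * t1 * t2) * (t2 * z2) * (t1 * z1) * (t * z) = 1 := by
      rw [← et3, ← ez3, ← c3]; exact rtz
    -- simplify t2 t2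
    have h' : z2 * z1 * z * t * (t1 * z2 * t1) * z1 * t * z = 1 := by
      rw [← h]
      simp only [mul_assoc]
      rw [cancel_sq st2]
    have e : t1 * z2 * t1 * z1 = (t1 * (z1 * z2) * t1)⁻¹ := by
      simp only [mul_inv_rev, iz1, iz2, it1]
      simp only [mul_assoc]
      rw [c1]
    have h'' : z2 * z1 * (z * t * (t1 * (z1 * z2) * t1)⁻¹ * (t * z)) = 1 := by
      rw [← e, ← h']; simp only [mul_assoc]
    -- so t z (T1 q)⁻¹ z t = q
    have k1 : z * t * (t1 * (z1 * z2) * t1)⁻¹ * (t * z) = z1 * z2 := by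
      have := eq_inv_of_mul_eq_one_right h''
      rw [this, mul_inv_rev, iz1, iz2]
    obtain ⟨A, hA⟩ : ∃ a, a = (t1 * (z1 * z2) * t1)⁻¹ := ⟨_, rfl⟩
    rw [← hA] at k1
    have k2 : (t1 * (z1 * z2) * t1)⁻¹ = (t * z) * (z1 * z2) * (z * t) := by
      rw [← hA, ← k1]
      calc A = (t * (z * z) * t) * A * (t * (z * z) * t) := by rw [hz, mul_one, ht, one_mul, mul_one]
        _ = (t * z) * (z * t * A * (t * z)) * (z * t) := by simp only [mul_assoc]
    have hqz : z * (z1 * z2) * z = (z1 * z2)⁻¹ := by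
      have : z1 * z2 = z * z3 := by
        have hx := rz
        have : z2 * z1 = z3 * z := by
          calc z2 * z1 = (z2 * z1 * z) * z := by rw [mul_assoc, hz, mul_one]
            _ = z3 * z := by rw [← ez3]
        have h2 := congrArg (·⁻¹) this
        simpa [mul_inv_rev, iz1, iz2, iz3, iz] using h2
      rw [this, mul_inv_rev, iz, iz3]
      simp only [mul_assoc]
      rw [cancel_sq hz]
    have k3 : (t1 * (z1 * z2) * t1)⁻¹ = (t * (z1 * z2) * t)⁻¹ := by
      rw [k2]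
      calc (t * z) * (z1 * z2) * (z * t) = t * (z * (z1 * z2) * z) * t := by
            simp only [mul_assoc]
        _ = t * (z1 * z2)⁻¹ * t := by rw [hqz]
        _ = (t * (z1 * z2) * t)⁻¹ := by simp only [mul_inv_rev, it, mul_assoc]
    exact (inv_injective k3).symm
  -- X-forms
  have hz2X : z2 = X * z * X := by
    have : z2 = X⁻¹ * z * X := by rw [hz2, hz1, hXdef]; group
    rw [this, iX]
  have ht2X : t2 = X * t * X := by
    have : t2 = X⁻¹ * t * X := by rw [ht2, ht1, hXdef]; group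
    rw [this, iX]
  have ht3X : t3 = X * t1 * X := by
    have : t3 = X⁻¹ * t1 * X := by rw [ht3, ht2, hXdef]; group
    rw [this, iX]
  have hXt : (X * t) ^ 4 = 1 := by rw [hXdef]; exact h3
  have hXt1 : (X * t1) ^ 4 = 1 := by
    have e : (X * t1) = x⁻¹ * (X * t) * x := by rw [hXdef, ht1]; group
    have e4 : (x⁻¹ * (X * t) * x) ^ 4 = x⁻¹ * (X * t) ^ 4 * x := by
      rw [pow4, pow4]; simp only [mul_assoc, mul_inv_cancel_left]
    rw [e, e4, hXt]; group
  have dt := dihedral_swap hX ht hXt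
  have dt1 := dihedral_swap hX st1 hXt1
  -- R3
  have R3 : z2 * (t2 * z * t2⁻¹) * (t * z2 * t⁻¹) * z = 1 := by
    rw [it2, it, hz2X, ht2X]
    have h : (X * t * z) ^ 4 = 1 := by rw [hXdef]; exact h6
    have goal : X * z * X * (X * t * X * z * (X * t * X)) * (t * (X * z * X) * t) * z
        = (X * t * z) ^ 4 := by
      calc X * z * X * (X * t * X * z * (X * t * X)) * (t * (X * z * X) * t) * z
          = X * z * (X * X) * t * X * z * (X * t * X * t) * X * z * X * t * z := by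
            simp only [mul_assoc]
        _ = X * z * t * X * z * (X * t * X * t) * X * z * X * t * z := by
            rw [hX, mul_one]
        _ = X * z * t * X * z * ((t * X * t * X * t) * t) * X * z * X * t * z := by
            rw [dt]
        _ = X * z * t * X * z * (t * X * t * X) * (t * t) * X * z * X * t * z := by
            simp only [mul_assoc]
        _ = X * (z * t) * X * (z * t) * X * t * (X * X) * z * X * t * z := by
            rw [ht, mul_one]; simp only [mul_assoc]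
        _ = X * (t * z) * X * (t * z) * X * t * z * X * t * z := by
            rw [hX, mul_one, htz]
        _ = (X * t * z) ^ 4 := by
            simp only [pow_succ, pow_zero, one_mul, mul_assoc]
    rw [goal, h]
  -- p and its X-conjugate
  obtain ⟨p, hp⟩ : ∃ a, a = z * z1 := ⟨_, rfl⟩
  have hXpX : X * p = p⁻¹ * X := by
    have e1 : X⁻¹ * p * X = z2 * z3 := by
      rw [hp, hz3, hz2, hz1, hXdef]; group
    have e2 : z2 * z3 = p⁻¹ := by
      rw [hp, mul_inv_rev, iz, iz1, ez3]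
      simp only [mul_assoc]
      rw [cancel_sq sz2]
    have e3 : X * p * X = p⁻¹ := by rw [← e2, ← e1, iX]
    rw [← e3]; simp only [mul_assoc]; rw [hX, mul_one]
  have hXp' : X * p⁻¹ = p * X := invert_inv hXpX
  have J1 : (t2 * p * t2⁻¹)⁻¹ * (t * (t2 * p * t2⁻¹) * t⁻¹) * (t * p * t⁻¹)⁻¹ * p = 1 := by
    have h : (X * t * p) ^ 4 = 1 := by rw [hXdef, hp, hz1]; exact h7
    rw [← h]
    simp only [mul_inv_rev, it, it2, inv_inv]
    rw [ht2X]
    have e1 : X * p⁻¹ * X = p := by rw [hXp', mul_assoc, hX, mul_one]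
    have e2 : X * p * X = p⁻¹ := by rw [hXpX, mul_assoc, hX, mul_one]
    calc X * t * X * (p⁻¹ * (X * t * X)) * (t * (X * t * X * p * (X * t * X)) * t) *
          (t * (p⁻¹ * t)) * p
        = X * t * (X * p⁻¹ * X) * (t * X * t * X * t) * (X * p * X) * t * X * (t * t) *
            p⁻¹ * t * p := by simp only [mul_assoc]
      _ = X * t * p * (X * t * X) * p⁻¹ * t * X * 1 * p⁻¹ * t * p := by rw [e1, dt, e2, ht]
      _ = X * t * p * X * t * (X * p⁻¹) * t * (X * p⁻¹) * t * p := by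
          simp only [mul_assoc, one_mul]
      _ = X * t * p * X * t * (p * X) * t * (p * X) * t * p := by rw [hXp']
      _ = (X * t * p) ^ 4 := by rw [pow4]; simp only [mul_assoc]
  have R5 : (t3 * z2 * t3⁻¹) * (t3 * (t1 * z * t1⁻¹) * t3⁻¹) * (t1 * z2 * t1⁻¹) * z = 1 := by
    have h : (X * t1 * z) ^ 4 = 1 := by rw [hXdef, ht1]; exact h8
    rw [← h, it3, it1, ht3X, hz2X]
    calc X * t1 * X * (X * z * X) * (X * t1 * X) *
          (X * t1 * X * (t1 * z * t1) * (X * t1 * X)) * (t1 * (X * z * X) * t1) * z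
        = X * t1 * (X * X) * z * (X * X) * t1 * (X * X) * t1 * X * t1 * z *
            (t1 * X * t1 * X * t1) * X * z * X * t1 * z := by simp only [mul_assoc]
      _ = X * t1 * 1 * z * 1 * t1 * 1 * t1 * X * t1 * z * (X * t1 * X) * X * z * X * t1 * z := by
          rw [hX, dt1]
      _ = X * t1 * z * (t1 * t1) * X * t1 * z * X * t1 * (X * X) * z * X * t1 * z := by
          simp only [mul_assoc, one_mul]
      _ = (X * t1 * z) ^ 4 := by rw [st1, hX, pow4]; simp only [mul_assoc, one_mul]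
  have R6 := fourth_conj x (t1 * z * t1⁻¹) h1 (by rw [it1, ht1]; exact h9)
  -- apply the core computation
  have key := core (G := G) (MulAut.conj x⁻¹).toMonoidHom (MulAut.conj t).toMonoidHom
    (MulAut.conj t1).toMonoidHom (MulAut.conj t2).toMonoidHom (MulAut.conj t3).toMonoidHom
    (by intro g; simp [MulAut.conj_apply, ht1, mul_assoc])
    (by intro g; simp [MulAut.conj_apply, ht2, mul_assoc])
    (by intro g; simp [MulAut.conj_apply, ht3, mul_assoc])
    (by
      intro g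
      have e : t⁻¹ = x⁻¹ * t3⁻¹ * x := by rw [← ht4]; simp [mul_assoc]
      simp only [MulEquiv.toMonoidHom_eq_coe, MonoidHom.coe_coe, MulAut.conj_apply]
      rw [e]
      rw [← ht4]
      simp [mul_assoc])
    (by intro g; simp only [MulEquiv.toMonoidHom_eq_coe, MonoidHom.coe_coe, MulAut.conj_apply]
        rw [it]
        calc t * (t * g * t) * t = (t * t) * g * (t * t) := by simp only [mul_assoc]
          _ = g := by rw [ht, one_mul, mul_one])
    (by intro g; simp only [MulEquiv.toMonoidHom_eq_coe, MonoidHom.coe_coe, MulAut.conj_apply]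
        calc t3 * (t2 * g * t2⁻¹) * t3⁻¹ = (t3 * t2) * g * (t3 * t2)⁻¹ := by
              simp only [mul_inv_rev, mul_assoc]
          _ = (t * t1) * g * (t * t1)⁻¹ := by rw [e32]
          _ = t * (t1 * g * t1⁻¹) * t⁻¹ := by simp only [mul_inv_rev, mul_assoc])
    z z1 z2 z3 hz sz1 sz2 sz3
    (by simp [hz1]) (by simp [hz2]) (by simp [hz3]) (by simp [hz4])
    (by simp [MulAut.conj_apply, htz]) (by simp [MulAut.conj_apply, c1])
    (by simp [MulAut.conj_apply, c2]) (by simp [MulAut.conj_apply, c3])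
    rz A0 R3 (by rw [← hp]; exact J1) R5
    (by simpa [MulAut.conj_apply] using R6)
  have e : (x * x * z) ^ 4 = ((z2 * z) * (z2 * z)) := by
    rw [← hXdef, pow4, hz2X]
    have : X * z * (X * z * (X * z * (X * z))) = X * z * X * z * (X * z * X * z) := by
      simp only [mul_assoc]
    rw [this]
  rw [e, key]

end

end Pool.Agent.Helper3.FOB
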