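import Mathlib

/-!
Sanov's lemma: if `K` is a finite subgroup, `y * y ∈ K` and `(y k)^4 = 1` for all `k ∈ K`,
then `⟨K, y⟩` is finite.
-/

namespace Pool.Agent.Helper3.FOB

section
variable {G : Type*} [Group G]

/-- Products `k_0 y k_1 y ... y k_n` with `k_i ∈ K`. -/
def SW (K : Subgroup G) (y : G) : ℕ → Set G
  | 0 => K
  | n + 1 => {g | ∃ k ∈ K, ∃ r ∈ SW K y n, g = k * y * r}

theorem SW_finite (K : Subgroup G) [Finite K] (y : G) : ∀ n, (SW K y n).Finite
  | 0 => Set.toFinite (K : Set G)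
  | n + 1 => by
      have h := SW_finite K y n
      have hK : (K : Set G).Finite := Set.toFinite _
      refine (Set.Finite.image2 (fun k r => k * y * r) hK h).subset ?_
      rintro g ⟨k, hk, r, hr, rfl⟩
      exact ⟨k, hk, r, hr, rfl⟩

theorem SW_smul {K : Subgroup G} {y : G} : ∀ {n : ℕ} {k g : G}, k ∈ K → g ∈ SW K y n →
    k * g ∈ SW K y n
  | 0, _, _, hk, hg => K.mul_mem hk hg
  | n + 1, k, g, hk, hg => by
      obtain ⟨l, hl, r, hr, rfl⟩ := hg
      exact ⟨k * l, K.mul_mem hk hl, r, hr, by simp only [mul_assoc]⟩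

theorem SW_mul {K : Subgroup G} {y : G} : ∀ {n m : ℕ} {g h : G}, g ∈ SW K y n →
    h ∈ SW K y m → g * h ∈ SW K y (n + m)
  | 0, m, g, h, hg, hh => by
      rw [Nat.zero_add]; exact SW_smul hg hh
  | n + 1, m, g, h, hg, hh => by
      obtain ⟨l, hl, r, hr, rfl⟩ := hg
      have : n + 1 + m = (n + m) + 1 := by omega
      rw [this]
      exact ⟨l, hl, r * h, SW_mul hr hh, by simp only [mul_assoc]⟩

theorem SW_inv {K : Subgroup G} {y : G} (hy : y * y ∈ K) : ∀ {n : ℕ} {g : G}, g ∈ SW K y n →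
    g⁻¹ ∈ SW K y n
  | 0, _, hg => K.inv_mem hg
  | n + 1, g, hg => by
      obtain ⟨k, hk, r, hr, rfl⟩ := hg
      have h1 : (1 : G) * y * ((y * y)⁻¹ * k⁻¹) ∈ SW K y 1 :=
        ⟨1, K.one_mem, (y * y)⁻¹ * k⁻¹, K.mul_mem (K.inv_mem hy) (K.inv_mem hk), rfl⟩
      have h2 := SW_mul (SW_inv hy hr) h1
      have e : (k * y * r)⁻¹ = r⁻¹ * ((1 : G) * y * ((y * y)⁻¹ * k⁻¹)) := by group
      rw [e]; exact h2

/-- possible first letters -/
def SD (K : Subgroup G) (y : G) (n : ℕ) (g : G) : Set G :=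
  {q | q ∈ K ∧ ∃ r ∈ SW K y n, g = q * y * r}

theorem SD_card {K : Subgroup G} [Finite K] {y : G} (hy : y * y ∈ K)
    (h4 : ∀ k ∈ K, (y * k) ^ 4 = 1) :
    ∀ (n : ℕ) (g : G), g ∈ SW K y (n + 1) → (∀ m, m < n + 1 → g ∉ SW K y m) →
      n + 1 ≤ (SD K y n g).ncard
  | 0, g, hg, _ => by
      obtain ⟨k, hk, r, hr, e⟩ := hg
      have hfin : (SD K y 0 g).Finite := (Set.toFinite (K : Set G)).subset (fun q hq => hq.1)
      have : 0 < (SD K y 0 g).ncard := (Set.ncard_pos hfin).mpr ⟨k, hk, r, hr, e⟩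
      omega
  | n + 1, g, hg, hmin => by
      obtain ⟨k, hk, g', hg', e⟩ := hg
      have hmin' : ∀ m, m < n + 1 → g' ∉ SW K y m := by
        intro m hm hmem
        exact hmin (m + 1) (by omega) ⟨k, hk, g', hmem, e⟩
      have ih := SD_card hy h4 n g' hg' hmin'
      have hfin : ∀ n g, (SD K y n g).Finite := fun n g =>
        (Set.toFinite (K : Set G)).subset (fun q hq => hq.1)
      have h1 : (1 : G) ∉ SD K y n g' := by
        rintro ⟨_, r, hr, e'⟩
        refine hmin n (by omega) ?_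
        have : g = (k * (y * y)) * r := by rw [e, e']; group
        rw [this]
        exact SW_smul (K.mul_mem hk hy) hr
      have hinj : Function.Injective (fun q : G => k * q⁻¹) := by
        intro a b hab
        exact inv_injective (mul_left_cancel hab)
      have hk' : k ∉ (fun q : G => k * q⁻¹) '' SD K y n g' := by
        rintro ⟨q, hq, hqe⟩
        have hq1 : q = 1 := by
          have h : k * q⁻¹ = k * 1 := by simpa using hqe
          have := mul_left_cancel h
          simpa using this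
        rw [hq1] at hq
        exact h1 hq
      have hsub : insert k ((fun q : G => k * q⁻¹) '' SD K y n g') ⊆ SD K y (n + 1) g := by
        intro s hs
        rcases hs with rfl | ⟨q, ⟨hqK, r, hr, e'⟩, rfl⟩
        · exact ⟨hk, g', hg', e⟩
        · refine ⟨K.mul_mem hk (K.inv_mem hqK), ((y * y)⁻¹ * q⁻¹) * y * (((y * y)⁻¹ * q⁻¹) * r), ?_, ?_⟩
          · exact ⟨(y * y)⁻¹ * q⁻¹, K.mul_mem (K.inv_mem hy) (K.inv_mem hqK), _,
              SW_smul (K.mul_mem (K.inv_mem hy) (K.inv_mem hqK)) hr, rfl⟩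
          · have h := h4 q hqK
            have hq4 : y * q * y * (q * y * q * y * q) = 1 := by
              rw [← h]; simp only [pow_succ, pow_zero, one_mul, mul_assoc]
            have e1 : y * q * y = (q * y * q * y * q)⁻¹ := eq_inv_of_mul_eq_one_left hq4
            rw [e, e']
            have e2 : k * y * (q * y * r) = k * (y * q * y) * r := by simp only [mul_assoc]
            rw [e2, e1]
            group
      have hc : (insert k ((fun q : G => k * q⁻¹) '' SD K y n g')).ncard
          = (SD K y n g').ncard + 1 := by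
        rw [Set.ncard_insert_of_notMem hk' ((hfin n g').image _),
          Set.ncard_image_of_injective _ hinj]
      have := Set.ncard_le_ncard hsub (hfin (n + 1) g)
      omega

theorem sanov {K : Subgroup G} [Finite K] {y : G} (hy : y * y ∈ K)
    (h4 : ∀ k ∈ K, (y * k) ^ 4 = 1) : Finite (K ⊔ Subgroup.zpowers y : Subgroup G) := by
  let S : Subgroup G :=
    { carrier := {g | ∃ n, g ∈ SW K y n}
      one_mem' := ⟨0, K.one_mem⟩
      mul_mem' := by
        rintro a b ⟨n, hn⟩ ⟨m, hm⟩
        exact ⟨n + m, SW_mul hn hm⟩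
      inv_mem' := by
        rintro a ⟨n, hn⟩
        exact ⟨n, SW_inv hy hn⟩ }
  have hKS : K ≤ S := fun k hk => ⟨0, hk⟩
  have hyS : y ∈ S := ⟨1, 1, K.one_mem, 1, K.one_mem, by simp⟩
  have hle : K ⊔ Subgroup.zpowers y ≤ S :=
    sup_le hKS (by rw [Subgroup.zpowers_le]; exact hyS)
  have hSfin : (S : Set G).Finite := by
    have hU : (⋃ n ∈ Finset.range (Nat.card K + 1), SW K y n).Finite :=
      Set.Finite.biUnion (Finset.finite_toSet _) (fun n _ => SW_finite K y n)
    refine hU.subset ?_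
    rintro g ⟨n, hn⟩
    classical
    have hex : ∃ n, g ∈ SW K y n := ⟨n, hn⟩
    obtain ⟨N, hN, hNmin⟩ : ∃ N, g ∈ SW K y N ∧ ∀ m, m < N → g ∉ SW K y m :=
      ⟨Nat.find hex, Nat.find_spec hex, fun m hm => Nat.find_min hex hm⟩
    have hNle : N ≤ Nat.card K := by
      rcases N with _ | N
      · exact Nat.zero_le _
      · have h1 := SD_card hy h4 N g hN hNmin
        have h2 : (SD K y N g).ncard ≤ (K : Set G).ncard :=
          Set.ncard_le_ncard (fun q hq => hq.1) (Set.toFinite _)
        have h3 : (K : Set G).ncard = Nat.card K := rfl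
        omega
    simp only [Set.mem_iUnion, Finset.mem_range]
    exact ⟨N, by omega, hN⟩
  exact (hSfin.subset hle).to_subtype

end

end Pool.Agent.Helper3.FOB
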