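import Mathlib

/-!
A group of exponent four with two elements whose squares do not commute.
-/

namespace Pool.Agent.Helper3.FOB

abbrev M5 := Matrix (Fin 5) (Fin 5) (ZMod 2)

def Mat (a b c d e f g h i j : ZMod 2) : M5 :=
  !![1, a, b, c, d; 0, 1, e, f, g; 0, 0, 1, h, i; 0, 0, 0, 1, j; 0, 0, 0, 0, 1]

theorem Mat_mul (a b c d e f g h i j a' b' c' d' e' f' g' h' i' j' : ZMod 2) :
    Mat a b c d e f g h i j * Mat a' b' c' d' e' f' g' h' i' j' =
      Mat (a' + a) (b' + a * e' + b) (c' + a * f' + b * h' + c)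
        (d' + a * g' + b * i' + c * j' + d) (e' + e) (f' + e * h' + f)
        (g' + e * i' + f * j' + g) (h' + h) (i' + h * j' + i) (j' + j) := by
  ext r s
  fin_cases r <;> fin_cases s <;>
    simp [Mat, Matrix.mul_apply, Fin.sum_univ_succ] <;> ring

theorem Mat_zero : Mat 0 0 0 0 0 0 0 0 0 0 = 1 := by
  ext r s
  fin_cases r <;> fin_cases s <;> simp [Mat]

theorem Mat_sq (a b c d e f g h i j : ZMod 2) :
    Mat a b c d e f g h i j * Mat a b c d e f g h i j =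
      Mat 0 (a * e) (a * f + b * h) (a * g + b * i + c * j) 0 (e * h) (e * i + f * j) 0
        (h * j) 0 := by
  have t : ∀ u : ZMod 2, u + u = 0 := by decide
  have t2 : ∀ u v : ZMod 2, u + v + u = v := by decide
  have t3 : ∀ u v w : ZMod 2, u + v + w + u = v + w := by decide
  have t4 : ∀ u v w z : ZMod 2, u + v + w + z + u = v + w + z := by decide
  rw [Mat_mul]
  simp only [t, t2, t3, t4]

theorem Mat_four (a b c d e f g h i j : ZMod 2) (H : a * e * (h * j) = 0) :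
    (Mat a b c d e f g h i j) ^ 4 = 1 := by
  have e4 : (Mat a b c d e f g h i j) ^ 4 =
      (Mat a b c d e f g h i j * Mat a b c d e f g h i j) *
      (Mat a b c d e f g h i j * Mat a b c d e f g h i j) := by
    simp only [pow_succ, pow_zero, one_mul, mul_assoc]
  rw [e4, Mat_sq, Mat_sq]
  simp only [zero_mul, mul_zero, add_zero, zero_add, H]
  exact Mat_zero

/-- the set of admissible matrices -/
def Adm (U : M5) : Prop :=
  ∃ α β b c d f g i : ZMod 2, U = Mat (α + β) b c d α f g β i β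

theorem Adm.mul {U V : M5} (hU : Adm U) (hV : Adm V) : Adm (U * V) := by
  obtain ⟨α, β, b, c, d, f, g, i, rfl⟩ := hU
  obtain ⟨α', β', b', c', d', f', g', i', rfl⟩ := hV
  rw [Mat_mul]
  have e : α' + β' + (α + β) = (α' + α) + (β' + β) := by ring
  rw [e]
  exact ⟨_, _, _, _, _, _, _, _, rfl⟩

theorem Adm.four {U : M5} (hU : Adm U) : U ^ 4 = 1 := by
  obtain ⟨α, β, b, c, d, f, g, i, rfl⟩ := hU
  apply Mat_four
  revert α β; decide

theorem Adm.one : Adm 1 := ⟨0, 0, 0, 0, 0, 0, 0, 0, by rw [add_zero]; exact Mat_zero.symm⟩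

/-- the group of admissible units -/
def E5 : Subgroup M5ˣ where
  carrier := {U | Adm (U : M5)}
  one_mem' := Adm.one
  mul_mem' := by
    intro U V hU hV
    exact Adm.mul hU hV
  inv_mem' := by
    intro U hU
    have h4 : U ^ 4 = 1 := Units.ext (by simpa using Adm.four hU)
    have e : U⁻¹ = U * (U * U) := by
      apply inv_eq_of_mul_eq_one_right
      rw [← h4]; simp only [pow_succ, pow_zero, one_mul, mul_assoc]
    change Adm ((U⁻¹ : M5ˣ) : M5)
    rw [e]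
    exact Adm.mul hU (Adm.mul hU hU)

theorem E5_four (g : E5) : g ^ 4 = 1 := by
  apply Subtype.ext; apply Units.ext
  have := Adm.four g.2
  simpa using this

def unitOf (U : M5) (hU : Adm U) : E5 :=
  ⟨⟨U, U ^ 3, by rw [← pow_succ']; exact hU.four, by rw [← pow_succ]; exact hU.four⟩, hU⟩

def wA : E5 := unitOf (Mat (1 + 0) 0 0 0 1 0 0 0 0 0) ⟨1, 0, 0, 0, 0, 0, 0, 0, rfl⟩
def wB : E5 := unitOf (Mat (0 + 1) 0 0 0 0 0 0 1 0 1) ⟨0, 1, 0, 0, 0, 0, 0, 0, rfl⟩

theorem wit1 : (wB * wB * (wA * wA)) * (wB * wB * (wA * wA)) ≠ 1 := by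
  intro h
  have h2 := congrArg (fun g : E5 => ((g : M5ˣ) : M5)) h
  have h3 : (Mat (0 + 1) 0 0 0 0 0 0 1 0 1 * Mat (0 + 1) 0 0 0 0 0 0 1 0 1 *
      (Mat (1 + 0) 0 0 0 1 0 0 0 0 0 * Mat (1 + 0) 0 0 0 1 0 0 0 0 0)) *
      (Mat (0 + 1) 0 0 0 0 0 0 1 0 1 * Mat (0 + 1) 0 0 0 0 0 0 1 0 1 *
      (Mat (1 + 0) 0 0 0 1 0 0 0 0 0 * Mat (1 + 0) 0 0 0 1 0 0 0 0 0)) = 1 := h2
  rw [Mat_sq, Mat_sq, Mat_mul, Mat_sq] at h3
  have h4 := congrFun (congrFun h3 0) 4
  revert h4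
  simp [Mat]

theorem exists_witness : ∃ (E : Type) (_ : Group E) (A B : E), (∀ g : E, g ^ 4 = 1) ∧
    (B * B * (A * A)) * (B * B * (A * A)) ≠ 1 :=
  ⟨E5, inferInstance, wA, wB, E5_four, wit1⟩

end Pool.Agent.Helper3.FOB
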