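import Pool.Agent.Helper3.FOB.Basic
import Pool.Agent.Helper3.FOB.Witness
import Pool.Agent.Helper3.FOB.FinCase
import Pool.Agent.Helper3.FOB.KeyLemma
import Pool.Agent.Helper3.FOB.Sanov

/-!
Exponent four: a homomorphism killing the fourth powers of all words of full order kills all
fourth powers.
-/

namespace Pool.Agent.Helper3.FOB

section
variable {X : Type*}

/-- `f` kills the fourth powers of the words of full order. -/
def Good4 {G : Type*} [Group G] (f : FreeGroup X →* G) : Prop :=
  ∀ w : FreeGroup X, w * w ∉ powSubgroup X 4 → (f w) ^ 4 = 1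

theorem not_mem_of_hom {E : Type*} [Group E] (hE : ∀ g : E, g ^ 4 = 1)
    (η : FreeGroup X →* E) {w : FreeGroup X} (h : η w * η w ≠ 1) :
    w * w ∉ powSubgroup X 4 := by
  intro hw
  apply h
  rw [← map_mul]
  exact map_eq_one_of_mem η (fun w => hE _) hw

/-- the group `ℤ/4` written multiplicatively -/
abbrev Z4 := Multiplicative (ZMod 4)

theorem Z4_four (g : Z4) : g ^ 4 = 1 := by revert g; decide

/-- hom sending `x` to the generator and the other generators to `1` -/
noncomputable def chi (x : X) : FreeGroup X →* Z4 := by
  classical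
  exact FreeGroup.lift (fun y => if y = x then Multiplicative.ofAdd 1 else 1)

theorem chi_self (x : X) : chi x (FreeGroup.of x) = Multiplicative.ofAdd 1 := by
  simp [chi]

theorem chi_ne {x y : X} (h : y ≠ x) : chi x (FreeGroup.of y) = 1 := by
  simp [chi, h]

theorem full_of_chi {x : X} {w : FreeGroup X}
    (h : chi x w = Multiplicative.ofAdd 1 ∨ chi x w = Multiplicative.ofAdd 3) :
    w * w ∉ powSubgroup X 4 := by
  apply not_mem_of_hom Z4_four (chi x)
  rcases h with h | h <;> rw [h] <;> decide

end

/-- The generator lemma for one variable. -/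
theorem range_le_of_gens {X : Type*} {G : Type*} [Group G] (f : FreeGroup X →* G)
    (K : Subgroup G) (h : ∀ x, f (FreeGroup.of x) ∈ K) : f.range ≤ K := by
  rintro g ⟨w, rfl⟩
  induction w using FreeGroup.induction_on with
  | C1 => rw [map_one]; exact K.one_mem
  | of x => exact h x
  | inv_of x ih => rw [map_inv]; exact K.inv_mem (h x)
  | mul x y ihx ihy => rw [map_mul]; exact K.mul_mem ihx ihy

/-- the finite case for the image of a free group -/
theorem exp_four_of_finite {X : Type*} {G : Type*} [Group G] (f : FreeGroup X →* G)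
    (hf : Good4 f) [Finite f.range] (x y : X) (hxy : x ≠ y) : ∀ w, (f w) ^ 4 = 1 := by
  classical
  obtain ⟨E, _, A, B, hE, hw⟩ := exists_witness
  let g : FreeGroup X →* f.range := f.rangeRestrict
  have hgs : Function.Surjective g := f.rangeRestrict_surjective
  have hg4 : ∀ w, w * w ∉ powSubgroup X 4 → (g w) ^ 4 = 1 := by
    intro w hw
    apply Subtype.ext
    have := hf w hw
    simpa [g] using this
  let H : Subgroup f.range := (powSubgroup X 4).map g
  have hHn : H.Normal := (powSubgroup_normal (X := X) (n := 4)).map g hgs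
  have hsq : H ≤ Subgroup.closure {u | ∃ h ∈ H, u = h * h} := by
    change (powSubgroup X 4).map g ≤ _
    rw [Subgroup.map_le_iff_le_comap]
    unfold powSubgroup
    rw [Subgroup.closure_le]
    rintro u ⟨w, rfl⟩
    apply Subgroup.subset_closure
    change ∃ h ∈ H, g (w ^ 4) = h * h
    by_cases hw : w * w ∈ powSubgroup X 4
    · refine ⟨g (w * w), Subgroup.mem_map_of_mem g hw, ?_⟩
      rw [← map_mul]; congr 1
      simp only [pow_succ, pow_zero, one_mul, mul_assoc]
    · refine ⟨1, H.one_mem, ?_⟩
      rw [map_pow, hg4 w hw, one_mul]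
  let η : FreeGroup X →* E := FreeGroup.lift (fun z => if z = x then A else if z = y then B else 1)
  have ηx : η (FreeGroup.of x) = A := by simp [η]
  have ηy : η (FreeGroup.of y) = B := by simp [η, hxy.symm]
  have key := finite_case H hsq (g (FreeGroup.of y)) (g (FreeGroup.of x))
    (by
      rintro h ⟨c, hc, rfl⟩
      rw [← map_mul]
      apply hg4
      apply full_of_chi (x := y)
      left
      rw [map_mul, map_eq_one_of_mem (chi y) (fun w => Z4_four _) hc, one_mul, chi_self])
    (by
      rintro h ⟨c, hc, rfl⟩
      rw [← map_mul]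
      apply hg4
      apply full_of_chi (x := x)
      left
      rw [map_mul, map_eq_one_of_mem (chi x) (fun w => Z4_four _) hc, one_mul, chi_self])
    (by
      rintro h ⟨c, hc, rfl⟩
      rw [← map_mul, ← map_mul, ← map_mul]
      apply hg4
      apply full_of_chi (x := x)
      left
      rw [map_mul, map_mul, map_mul, map_eq_one_of_mem (chi x) (fun w => Z4_four _) hc,
        one_mul, chi_self, chi_ne hxy.symm, one_mul, one_mul])
    (by
      rintro h ⟨c, hc, rfl⟩
      rw [← map_mul, ← map_mul, ← map_mul]
      apply hg4
      apply full_of_chi (x := y)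
      left
      rw [map_mul, map_mul, map_mul, map_eq_one_of_mem (chi y) (fun w => Z4_four _) hc,
        one_mul, chi_self, chi_ne hxy, mul_one, mul_one])
    (by
      rintro h ⟨c, hc, rfl⟩
      rw [← map_mul, ← map_mul, ← map_mul, ← map_mul]
      apply hg4
      apply not_mem_of_hom hE η
      rw [map_mul, map_mul, map_mul, map_mul, map_eq_one_of_mem η (fun w => hE _) hc,
        one_mul, ηx, ηy]
      exact hw)
  intro w
  have hmem : g (w ^ 4) ∈ H := Subgroup.mem_map_of_mem g (pow_mem_powSubgroup w)
  rw [key, Subgroup.mem_bot] at hmem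
  have := congrArg Subtype.val hmem
  simpa [g] using this

end Pool.Agent.Helper3.FOB
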