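import Pool.Agent.Helper3.FOB.Four

/-!
Exponent four, all finite ranks, by induction on the rank; then all ranks.
-/

namespace Pool.Agent.Helper3.FOB

section
variable {G : Type*} [Group G]

/-- inclusion of the free group on the first `m` generators -/
noncomputable abbrev iota (m : ℕ) : FreeGroup (Fin m) →* FreeGroup (Fin (m + 1)) :=
  FreeGroup.map Fin.castSucc

/-- the hom `F_{m+1} → E` sending the last generator to `B` and restricting to `φ` -/
noncomputable def extend {E : Type*} [Group E] (m : ℕ) (φ : FreeGroup (Fin m) →* E) (B : E) :
    FreeGroup (Fin (m + 1)) →* E :=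
  FreeGroup.lift (Fin.lastCases B (fun i => φ (FreeGroup.of i)))

theorem extend_last {E : Type*} [Group E] (m : ℕ) (φ : FreeGroup (Fin m) →* E) (B : E) :
    extend m φ B (FreeGroup.of (Fin.last m)) = B := by
  simp [extend]

theorem extend_iota {E : Type*} [Group E] (m : ℕ) (φ : FreeGroup (Fin m) →* E) (B : E)
    (w : FreeGroup (Fin m)) : extend m φ B (iota m w) = φ w := by
  have : (extend m φ B).comp (iota m) = φ := by
    ext i; simp [extend]
  exact DFunLike.congr_fun this w

theorem good4_iota {m : ℕ} (f : FreeGroup (Fin (m + 1)) →* G) (hf : Good4 f) :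
    Good4 (f.comp (iota m)) := by
  intro w hw
  apply hf
  intro h
  apply hw
  have := map_mem_powSubgroup (extend m (MonoidHom.id _) 1) h
  rw [map_mul, extend_iota] at this
  exact this

/-- The coset `x² K` consists of elements with trivial fourth power. -/
theorem claim1 {m : ℕ} (f : FreeGroup (Fin (m + 1)) →* G) (hf : Good4 f)
    (hK : ∀ w, (f (iota m w)) ^ 4 = 1) (w : FreeGroup (Fin m)) :
    (f (FreeGroup.of (Fin.last m)) * f (FreeGroup.of (Fin.last m)) * f (iota m w)) ^ 4 = 1 := by
  classical
  obtain ⟨x, hx⟩ : ∃ x, x = FreeGroup.of (Fin.last m) := ⟨_, rfl⟩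
  obtain ⟨E, _, A, B, hE, hAB⟩ := exists_witness
  rw [← hx]
  by_cases hW : (x * x * iota m w) * (x * x * iota m w) ∈ powSubgroup (Fin (m + 1)) 4
  swap
  · have := hf _ hW
    simpa using this
  -- `f ∘ ι` kills the fourth powers
  have hkill : ∀ c ∈ powSubgroup (Fin m) 4, f (iota m c) = 1 := by
    intro c hc
    exact map_eq_one_of_mem (f.comp (iota m)) (fun w => hK w) hc
  -- k² = 1
  have hk2 : f (iota m w) * f (iota m w) = 1 := by
    have h := map_mem_powSubgroup (extend m (MonoidHom.id _) 1) hW
    rw [map_mul, map_mul, map_mul, extend_iota, hx, extend_last, one_mul, one_mul] at h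
    have := hkill _ h
    simpa using this
  have chi_iota : ∀ v : FreeGroup (Fin m), chi (Fin.last m) (iota m v) = 1 := by
    intro v
    have : (chi (Fin.last m)).comp (iota m) = 1 := by
      ext i
      simp only [MonoidHom.comp_apply, iota, FreeGroup.map.of, MonoidHom.one_apply]
      exact chi_ne (ne_of_lt (Fin.castSucc_lt_last i))
    exact DFunLike.congr_fun this v
  have chi_x : chi (Fin.last m) x = Multiplicative.ofAdd 1 := by rw [hx]; exact chi_self _
  have hx4 : (f x) ^ 4 = 1 := by
    apply hf; apply full_of_chi (x := Fin.last m); left; exact chi_x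
  rcases m with _ | m
  · -- no other generator: w = 1
    have hw1 : w = 1 := Subsingleton.elim _ _
    rw [hw1, map_one, map_one, mul_one]
    have : (f x * f x) ^ 4 = (f x) ^ 4 * (f x) ^ 4 := by
      rw [← pow_two, ← pow_mul, ← pow_add]
    rw [this, hx4, one_mul]
  · -- y = the first generator
    obtain ⟨y, hy⟩ : ∃ y : FreeGroup (Fin (m + 1)), y = FreeGroup.of 0 := ⟨_, rfl⟩
    have hy4 : (f (iota (m + 1) y)) ^ 4 = 1 := hK y
    -- commutation of y² and k
    have hcomm : (f (iota _ y) * f (iota _ y)) * f (iota _ w) =
        f (iota _ w) * (f (iota _ y) * f (iota _ y)) := by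
      have h := map_mem_powSubgroup (extend (m + 1) (MonoidHom.id _) y) hW
      rw [map_mul, map_mul, map_mul, extend_iota, hx, extend_last, MonoidHom.id_apply] at h
      have h2 := hkill _ h
      simp only [map_mul] at h2
      have e : (f (iota _ y) * f (iota _ y)) * f (iota _ w) =
          ((f (iota _ y) * f (iota _ y)) * f (iota _ w))⁻¹ := eq_inv_of_mul_eq_one_left h2
      have i1 : (f (iota _ w))⁻¹ = f (iota _ w) := inv_of_sq hk2
      have i2 : (f (iota _ y) * f (iota _ y))⁻¹ = f (iota _ y) * f (iota _ y) := by
        apply inv_of_sq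
        rw [← hy4, pow4]; simp only [mul_assoc]
      rw [e, mul_inv_rev, i1, i2]
    -- killing the generators other than the first and the last one
    let φ : FreeGroup (Fin (m + 1)) →* E :=
      FreeGroup.lift (fun i => if i = 0 then A else 1)
    let η : FreeGroup (Fin (m + 1 + 1)) →* E := extend (m + 1) φ B
    have φy : φ y = A := by rw [hy]; simp [φ]
    have ηx : η x = B := by rw [hx]; exact extend_last _ _ _
    have ηι : ∀ v, η (iota _ v) = φ v := fun v => extend_iota _ _ _ v
    let e : FreeGroup (Fin (m + 1)) →* Multiplicative ℤ :=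
      FreeGroup.lift (fun i => if i = 0 then Multiplicative.ofAdd 1 else 1)
    have φe : ∀ v, φ v = A ^ (Multiplicative.toAdd (e v)) := by
      intro v
      have : φ = (zpowersHom E A).comp e := by
        ext i
        by_cases hi : i = 0
        · simp [φ, e, hi]
        · simp [φ, e, hi]
      rw [this]; rfl
    have φw : φ w = 1 := by
      obtain ⟨N, hN⟩ : ∃ N : ℤ, N = Multiplicative.toAdd (e w) := ⟨_, rfl⟩
      rw [φe, ← hN]
      -- `N` is even
      let e4 : FreeGroup (Fin (m + 1)) →* Z4 :=
        FreeGroup.lift (fun i => if i = 0 then Multiplicative.ofAdd 1 else 1)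
      have he4 : ∀ v, e4 v = Multiplicative.ofAdd (((Multiplicative.toAdd (e v)) : ℤ) : ZMod 4) := by
        intro v
        have : e4 = (AddMonoidHom.toMultiplicative (Int.castAddHom (ZMod 4))).comp e := by
          ext i
          by_cases hi : i = 0
          · simp [e4, e, hi]
          · simp [e4, e, hi]
        rw [this]; rfl
      have h1 : extend (m + 1) e4 1 ((x * x * iota _ w) * (x * x * iota _ w)) = 1 :=
        map_eq_one_of_mem _ (fun w => Z4_four _) hW
      rw [map_mul, map_mul, map_mul, extend_iota, hx, extend_last, one_mul, one_mul, he4,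
        ← hN] at h1
      have h2 : ((N : ℤ) : ZMod 4) + ((N : ℤ) : ZMod 4) = 0 := h1
      have h3 : ((N + N : ℤ) : ZMod 4) = 0 := by push_cast; exact h2
      have h4 : (4 : ℤ) ∣ N + N := by
        have := (ZMod.intCast_zmod_eq_zero_iff_dvd (N + N) 4).mp h3
        exact_mod_cast this
      obtain ⟨c, hc⟩ : ∃ c, N = 2 * c := ⟨N / 2, by omega⟩
      have hA4 : A ^ (4 : ℤ) = 1 := by exact_mod_cast hE A
      rcases Int.even_or_odd' c with ⟨d, hd | hd⟩
      · have : N = 4 * d := by omega
        rw [this, zpow_mul, hA4, one_zpow]
      · exfalso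
        have hN2 : N = 4 * d + 2 := by omega
        have hAN : A ^ N = A * A := by
          rw [hN2, zpow_add, zpow_mul, hA4, one_zpow, one_mul]
          exact zpow_two A
        have h5 : η ((x * x * iota _ w) * (x * x * iota _ w)) = 1 :=
          map_eq_one_of_mem η (fun w => hE _) hW
        rw [map_mul, map_mul, map_mul, ηx, ηι, φe, ← hN, hAN] at h5
        exact hAB h5
    -- conjugate form of the witness
    have hAB2 : (B * (A * A) * B) * (B * (A * A) * B) ≠ 1 := by
      intro h
      apply hAB
      calc B * B * (A * A) * (B * B * (A * A))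
          = B * ((B * (A * A) * B) * (B * (A * A) * B)) * B⁻¹ := by
            simp only [mul_assoc, mul_inv_cancel, mul_one]
        _ = 1 := by rw [h, mul_one, mul_inv_cancel]
    have odd_word : ∀ v : FreeGroup (Fin (m + 1 + 1)), chi (Fin.last (m + 1)) v = 1 →
        (f (x * v)) ^ 4 = 1 := by
      intro v hv
      apply hf; apply full_of_chi (x := Fin.last (m + 1)); left
      rw [map_mul, chi_x, hv, mul_one]
    have key := keyLemma (f x) (f (iota _ y) * f (iota _ y)) (f (iota _ w))
      (by rw [← hy4, pow4]; simp only [mul_assoc]) hk2 hcomm hx4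
      (by
        have := odd_word (iota _ y * iota _ y) (by rw [map_mul, chi_iota, one_mul])
        simpa using this)
      (by
        have := hf (x * x * (iota _ y * iota _ y))
          (not_mem_of_hom hE η (by simpa [ηx, ηι, φy] using hAB))
        simpa using this)
      (by
        have := odd_word (iota _ w) (chi_iota w)
        simpa using this)
      (by
        have := odd_word (iota _ y * iota _ y * iota _ w)
          (by rw [map_mul, map_mul, chi_iota, chi_iota, one_mul, one_mul])
        simpa using this)
      (by
        have := hf (x * x * (iota _ y * iota _ y) * iota _ w)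
          (not_mem_of_hom hE η (by simpa [ηx, ηι, φy, φw] using hAB))
        simpa using this)
      (by
        have := hf (x * x * (iota _ y * iota _ y) * (iota _ w * (x⁻¹ * iota _ w * x)))
          (not_mem_of_hom hE η (by simpa [ηx, ηι, φy, φw] using hAB))
        simpa using this)
      (by
        have := hf (x * x * (x⁻¹ * (iota _ y * iota _ y) * x) * iota _ w)
          (not_mem_of_hom hE η (by simpa [ηx, ηι, φy, φw, mul_assoc] using hAB2))
        simpa using this)
      (by
        have hc : chi (Fin.last (m + 1)) ((x⁻¹ * (iota _ y * iota _ y) * x) * iota _ w *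
            (x⁻¹ * (iota _ y * iota _ y) * x)) = 1 := by
          simp [chi_iota]
        have := odd_word _ hc
        simpa using this)
    exact key

/-- Finite rank: a good homomorphism has finite image and kills all fourth powers. -/
theorem main4_fin : ∀ (m : ℕ) {G : Type*} [Group G] (f : FreeGroup (Fin m) →* G), Good4 f →
    (∀ w, (f w) ^ 4 = 1) ∧ Finite f.range
  | 0, G, _, f, _ => by
      have h1 : ∀ w, f w = 1 := by
        intro w
        have : w = 1 := Subsingleton.elim _ _
        rw [this, map_one]
      refine ⟨fun w => by rw [h1, one_pow], ?_⟩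
      have : f.range = ⊥ := by
        rw [eq_bot_iff]
        rintro g ⟨w, rfl⟩
        rw [Subgroup.mem_bot]; exact h1 w
      rw [this]; infer_instance
  | m + 1, G, _, f, hf => by
      classical
      obtain ⟨ih1, ih2⟩ := main4_fin m (f.comp (iota m)) (good4_iota f hf)
      obtain ⟨x, hx⟩ : ∃ x, x = FreeGroup.of (Fin.last m) := ⟨_, rfl⟩
      have chi_iota : ∀ v : FreeGroup (Fin m), chi (Fin.last m) (iota m v) = 1 := by
        intro v
        have : (chi (Fin.last m)).comp (iota m) = 1 := by
          ext i
          simp only [MonoidHom.comp_apply, iota, FreeGroup.map.of, MonoidHom.one_apply]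
          exact chi_ne (ne_of_lt (Fin.castSucc_lt_last i))
        exact DFunLike.congr_fun this v
      have chi_x : chi (Fin.last m) x = Multiplicative.ofAdd 1 := by rw [hx]; exact chi_self _
      have hx4 : (f x) ^ 4 = 1 := by
        apply hf; apply full_of_chi (x := Fin.last m); left; exact chi_x
      let K : Subgroup G := (f.comp (iota m)).range
      have hKfin : Finite K := ih2
      -- first step
      have s1 : Finite (K ⊔ Subgroup.zpowers (f x * f x) : Subgroup G) := by
        apply sanov
        · have : f x * f x * (f x * f x) = 1 := by rw [← hx4, pow4]; simp only [mul_assoc]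
          rw [this]; exact K.one_mem
        · rintro k ⟨w, rfl⟩
          have := claim1 f hf ih1 w
          rw [hx]; exact this
      let L : Subgroup G := K ⊔ Subgroup.zpowers (f x * f x)
      have hLfin : Finite L := s1
      -- words of even exponent in `x`
      let C : Subgroup (FreeGroup (Fin (m + 1))) :=
        (Subgroup.zpowers (Multiplicative.ofAdd (2 : ZMod 4))).comap (chi (Fin.last m))
      have hLC : L ≤ C.map f := by
        apply sup_le
        · rintro k ⟨w, rfl⟩
          refine ⟨iota m w, ?_, rfl⟩
          change chi (Fin.last m) (iota m w) ∈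
            Subgroup.zpowers (Multiplicative.ofAdd (2 : ZMod 4))
          rw [chi_iota]; exact Subgroup.one_mem _
        · rw [Subgroup.zpowers_le]
          refine ⟨x * x, ?_, by rw [map_mul]⟩
          change chi (Fin.last m) (x * x) ∈
            Subgroup.zpowers (Multiplicative.ofAdd (2 : ZMod 4))
          rw [map_mul, chi_x]
          exact ⟨1, by decide⟩
      have hC : ∀ c ∈ C, chi (Fin.last m) c = 1 ∨
          chi (Fin.last m) c = Multiplicative.ofAdd 2 := by
        intro c hc
        obtain ⟨k, hk⟩ := hc
        have hk' : (Multiplicative.ofAdd (2 : ZMod 4)) ^ k = chi (Fin.last m) c := hk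
        rw [← hk']
        rcases Int.even_or_odd' k with ⟨d, hd | hd⟩
        · left
          rw [hd, zpow_mul]
          have : (Multiplicative.ofAdd (2 : ZMod 4)) ^ (2 : ℤ) = 1 := by decide
          rw [this, one_zpow]
        · right
          rw [hd, zpow_add, zpow_mul]
          have : (Multiplicative.ofAdd (2 : ZMod 4)) ^ (2 : ℤ) = 1 := by decide
          rw [this, one_zpow, one_mul, zpow_one]
      have s2 : Finite (L ⊔ Subgroup.zpowers (f x) : Subgroup G) := by
        apply sanov
        · exact (le_sup_right : Subgroup.zpowers (f x * f x) ≤ L) (Subgroup.mem_zpowers _)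
        · intro l hl
          obtain ⟨c, hc, rfl⟩ := hLC hl
          rw [← map_mul]
          apply hf
          apply full_of_chi (x := Fin.last m)
          rcases hC c hc with h | h
          · left; rw [map_mul, chi_x, h, mul_one]
          · right; rw [map_mul, chi_x, h]; decide
      have hle : f.range ≤ L ⊔ Subgroup.zpowers (f x) := by
        apply range_le_of_gens
        intro i
        refine Fin.lastCases ?_ (fun j => ?_) i
        · exact (le_sup_right : Subgroup.zpowers (f x) ≤ _) (by
            rw [hx]; exact Subgroup.mem_zpowers _)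
        · refine (le_sup_left : L ≤ _) ((le_sup_left : K ≤ L) ?_)
          exact ⟨FreeGroup.of j, by simp [iota]⟩
      have hfin : Finite f.range := by
        have h2 : ((L ⊔ Subgroup.zpowers (f x) : Subgroup G) : Set G).Finite :=
          Set.toFinite _
        exact (h2.subset hle).to_subtype
      refine ⟨?_, hfin⟩
      rcases m with _ | m
      · -- rank one
        have hcyc : f.range ≤ Subgroup.zpowers (f x) := by
          apply range_le_of_gens
          intro i
          have : i = Fin.last 0 := by
            apply Fin.ext; have := i.isLt; simp only [Fin.val_last]; omega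
          rw [this, hx]; exact Subgroup.mem_zpowers _
        intro w
        obtain ⟨k, hk⟩ := hcyc ⟨w, rfl⟩
        have hk' : (f x) ^ k = f w := hk
        rw [← hk', ← zpow_natCast, ← zpow_mul, mul_comm, zpow_mul, zpow_natCast, hx4, one_zpow]
      · exact exp_four_of_finite f hf 0 (Fin.last (m + 1)) (by
          intro h
          have := congrArg Fin.val h
          simp at this)

/-- All ranks. -/
theorem main4 {X : Type*} {G : Type*} [Group G] (f : FreeGroup X →* G) (hf : Good4 f) :
    ∀ w, (f w) ^ 4 = 1 := by
  intro w
  obtain ⟨m, e, w', he, rfl⟩ := exists_fin_word w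
  obtain ⟨r, hr⟩ := exists_retraction e he
  have hg : Good4 (f.comp (FreeGroup.map e)) := by
    intro v hv
    apply hf
    intro h
    apply hv
    have := map_mem_powSubgroup r h
    rw [map_mul, hr] at this
    exact this
  exact (main4_fin m (f.comp (FreeGroup.map e)) hg).1 w'

end

end Pool.Agent.Helper3.FOB
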