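import Pool.Agent.Helper3.FOB.Four

/-!
Exponents two and three.
-/

namespace Pool.Agent.Helper3.FOB

section group
variable {G : Type*} [Group G]

theorem cube (a : G) : a ^ 3 = a * (a * a) := by
  simp only [pow_succ, pow_zero, one_mul, mul_assoc]

/-- four cubes make `x` commute with `[x, v]` -/
theorem commA {x v : G} (hv : v ^ 3 = 1) (h1 : (x * v) ^ 3 = 1)
    (h2 : (x * v⁻¹) ^ 3 = 1) : Commute x (x⁻¹ * v⁻¹ * x * v) := by
  have hv' : v⁻¹ = v * v := by
    apply inv_eq_of_mul_eq_one_right; rw [← hv, cube]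
  have e1 : x * v * x = v⁻¹ * x⁻¹ * v⁻¹ := by
    have h : (x * v * x) * (v * x * v) = 1 := by rw [← h1, cube]; simp only [mul_assoc]
    rw [eq_inv_of_mul_eq_one_left h]; simp only [mul_inv_rev, mul_assoc]
  have e2 : x * v⁻¹ * x = v * x⁻¹ * v := by
    have h : (x * v⁻¹ * x) * (v⁻¹ * x * v⁻¹) = 1 := by rw [← h2, cube]; simp only [mul_assoc]
    rw [eq_inv_of_mul_eq_one_left h]; simp only [mul_inv_rev, inv_inv, mul_assoc]
  have c : Commute x (v⁻¹ * x * v) := by
    change x * (v⁻¹ * x * v) = v⁻¹ * x * v * x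
    calc x * (v⁻¹ * x * v) = (x * v⁻¹ * x) * v := by simp only [mul_assoc]
      _ = v * x⁻¹ * (v * v) := by rw [e2]; simp only [mul_assoc]
      _ = v * x⁻¹ * v⁻¹ := by rw [← hv']
      _ = (v⁻¹ * v⁻¹) * x⁻¹ * v⁻¹ := by
          have : v⁻¹ * v⁻¹ = v := by
            nth_rewrite 1 [hv']
            rw [mul_assoc, mul_inv_cancel, mul_one]
          rw [this]
      _ = v⁻¹ * (v⁻¹ * x⁻¹ * v⁻¹) := by simp only [mul_assoc]
      _ = v⁻¹ * x * v * x := by rw [← e1]; simp only [mul_assoc]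
  have := (Commute.refl x).inv_right.mul_right c
  simpa only [mul_assoc] using this

/-- the main computation for exponent three -/
theorem three_core {x y h : G} (hx : x ^ 3 = 1) (hy : y ^ 3 = 1) (hxy : (x * y) ^ 3 = 1)
    (hxy' : (x * y⁻¹) ^ 3 = 1) (hyh : (y * h) ^ 3 = 1) (hxyh : (x * (y * h)) ^ 3 = 1)
    (hxyh' : (x * (y * h)⁻¹) ^ 3 = 1) (hxh : (x * h) ^ 3 = 1) (hxh' : (x⁻¹ * h) ^ 3 = 1)
    (hc : (x * (x⁻¹ * y⁻¹ * x * y)) ^ 3 = 1)
    (hcd : (x * (x⁻¹ * y⁻¹ * x * y) * (h * (x⁻¹ * h * x)⁻¹)) ^ 3 = 1) :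
    Commute x (h ^ 3) ∧ (h ^ 3) ^ 3 = 1 := by
  obtain ⟨h1, hh1⟩ : ∃ a, a = x⁻¹ * h * x := ⟨_, rfl⟩
  obtain ⟨h2, hh2⟩ : ∃ a, a = x⁻¹ * h1 * x := ⟨_, rfl⟩
  have hx3 : x⁻¹ * h2 * x = h := by
    have : x⁻¹ * h2 * x = (x ^ 3)⁻¹ * h * x ^ 3 := by
      rw [hh2, hh1, cube]; simp only [mul_inv_rev, mul_assoc]
    rw [this, hx]; simp
  have r1 : h2 * h1 * h = 1 := by
    have e : (x * h) ^ 3 = x ^ 3 * (h2 * h1 * h) := by
      rw [hh2, hh1, cube, cube]; simp only [mul_assoc, mul_inv_cancel_left]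
    rw [e, hx, one_mul] at hxh
    exact hxh
  have r2 : h1 * h2 * h = 1 := by
    have hh : x * h * x⁻¹ = h2 := by rw [← hx3]; simp [mul_assoc]
    have hh' : x * h2 * x⁻¹ = h1 := by rw [hh2]; simp [mul_assoc]
    have e : (x⁻¹ * h) ^ 3 = (x ^ 3)⁻¹ * ((x * (x * h * x⁻¹) * x⁻¹) * (x * h * x⁻¹) * h) := by
      rw [cube, cube]; simp only [mul_assoc, mul_inv_rev, inv_mul_cancel_left]
    rw [e, hx, inv_one, one_mul, hh, hh'] at hxh'
    exact hxh'
  have c12 : h1 * h2 = h2 * h1 := by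
    have := r1.trans r2.symm
    exact (mul_right_cancel this).symm
  have conj_comm : ∀ a b : G, a * b = b * a →
      (x⁻¹ * a * x) * (x⁻¹ * b * x) = (x⁻¹ * b * x) * (x⁻¹ * a * x) := by
    intro a b hab
    calc (x⁻¹ * a * x) * (x⁻¹ * b * x) = x⁻¹ * (a * b) * x := by group
      _ = x⁻¹ * (b * a) * x := by rw [hab]
      _ = (x⁻¹ * b * x) * (x⁻¹ * a * x) := by group
  have c20 : h2 * h = h * h2 := by
    have := conj_comm _ _ c12
    rwa [← hh2, hx3] at this
  have c01 : Commute h h1 := by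
    have := conj_comm _ _ c20
    rwa [hx3, ← hh1] at this
  obtain ⟨c, hcdef⟩ : ∃ c, c = x⁻¹ * y⁻¹ * x * y := ⟨_, rfl⟩
  have cx : Commute x c := by rw [hcdef]; exact commA hy hxy hxy'
  have cE := commA hyh hxyh hxyh'
  have hE : x⁻¹ * (y * h)⁻¹ * x * (y * h) = h1⁻¹ * c * h := by
    rw [hcdef, hh1]; simp [mul_assoc]
  rw [hE] at cE
  have e1 : h1⁻¹ * c * h = h2⁻¹ * c * h1 := by
    have k1 : x⁻¹ * (h1⁻¹ * c * h) * x = h1⁻¹ * c * h := by
      rw [mul_assoc, ← cE.eq]; simp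
    have k2 : x⁻¹ * (h1⁻¹ * c * h) * x = h2⁻¹ * (x⁻¹ * c * x) * h1 := by
      calc x⁻¹ * (h1⁻¹ * c * h) * x
          = (x⁻¹ * h1 * x)⁻¹ * (x⁻¹ * c * x) * (x⁻¹ * h * x) := by simp [mul_assoc]
        _ = h2⁻¹ * (x⁻¹ * c * x) * h1 := by rw [← hh2, ← hh1]
    have k3 : x⁻¹ * c * x = c := by rw [mul_assoc, ← cx.eq]; simp
    rw [← k1, k2, k3]
  obtain ⟨d, hd⟩ : ∃ d, d = h * h1⁻¹ := ⟨_, rfl⟩
  have hd1 : x⁻¹ * d * x = h1 * h2⁻¹ := by
    calc x⁻¹ * d * x = (x⁻¹ * h * x) * (x⁻¹ * h1 * x)⁻¹ := by rw [hd]; simp [mul_assoc]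
      _ = h1 * h2⁻¹ := by rw [← hh2, ← hh1]
  have e2 : c * d * c⁻¹ = x⁻¹ * d * x := by
    rw [hd1, hd]
    have k : (h1⁻¹ * c * h)⁻¹ = (h2⁻¹ * c * h1)⁻¹ := by rw [e1]
    simp only [mul_inv_rev, inv_inv] at k
    -- h⁻¹ * (c⁻¹ * h1) = h1⁻¹ * (c⁻¹ * h2)
    calc c * (h * h1⁻¹) * c⁻¹ = c * h * (h1⁻¹ * (c⁻¹ * h2)) * h2⁻¹ := by simp [mul_assoc]
      _ = c * h * (h⁻¹ * (c⁻¹ * h1)) * h2⁻¹ := by rw [k]
      _ = h1 * h2⁻¹ := by simp [mul_assoc]
  have cd : Commute (x * c) d := by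
    change x * c * d = d * (x * c)
    calc x * c * d = x * (c * d * c⁻¹) * c := by simp [mul_assoc]
      _ = x * (x⁻¹ * d * x) * c := by rw [e2]
      _ = d * (x * c) := by simp [mul_assoc]
  have d3 : d ^ 3 = 1 := by
    rw [← hcdef, ← hh1, ← hd, cd.mul_pow] at hcd
    rw [← hcdef] at hc
    rw [hc, one_mul] at hcd
    exact hcd
  have h31 : h ^ 3 = h1 ^ 3 := by
    have : (h * h1⁻¹) ^ 3 = h ^ 3 * (h1 ^ 3)⁻¹ := by
      rw [c01.inv_right.mul_pow, inv_pow]
    rw [← hd, d3] at this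
    exact (mul_inv_eq_one.mp this.symm)
  have hconj : x⁻¹ * h ^ 3 * x = h1 ^ 3 := by
    rw [hh1, cube, cube]; simp [mul_assoc]
  have hcomm : Commute x (h ^ 3) := by
    change x * h ^ 3 = h ^ 3 * x
    have : x⁻¹ * h ^ 3 * x = h ^ 3 := by rw [hconj, ← h31]
    calc x * h ^ 3 = x * (x⁻¹ * h ^ 3 * x) := by rw [this]
      _ = h ^ 3 * x := by simp [mul_assoc]
  refine ⟨hcomm, ?_⟩
  have h32 : h2 ^ 3 = h ^ 3 := by
    have : x⁻¹ * h1 ^ 3 * x = h2 ^ 3 := by rw [hh2, cube, cube]; simp [mul_assoc]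
    rw [← this, ← h31, hconj, ← h31]
  have c21 : Commute h2 h1 := c12.symm
  have c21h : Commute (h2 * h1) h := by
    have e : h2 * h1 = h⁻¹ := eq_inv_of_mul_eq_one_left r1
    rw [e]; exact (Commute.refl h).inv_left
  have : (h2 * h1 * h) ^ 3 = 1 := by rw [r1, one_pow]
  rw [c21h.mul_pow, c21.mul_pow, h32, ← h31] at this
  rw [cube, ← this, mul_assoc]

end group

section
variable {X : Type*} {G : Type*} [Group G]

/-- hom to `ℤ/n` counting the letter `x` -/
noncomputable def chiN (n : ℕ) (x : X) : FreeGroup X →* Multiplicative (ZMod n) := by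
  classical
  exact FreeGroup.lift (fun y => if y = x then Multiplicative.ofAdd 1 else 1)

theorem chiN_self (n : ℕ) (x : X) : chiN n x (FreeGroup.of x) = Multiplicative.ofAdd 1 := by
  simp [chiN]

theorem chiN_ne {n : ℕ} {x y : X} (h : y ≠ x) : chiN n x (FreeGroup.of y) = 1 := by
  simp [chiN, h]

theorem chiN_kills {n : ℕ} (x : X) {w : FreeGroup X} (hw : w ∈ powSubgroup X n) :
    chiN n x w = 1 := by
  apply map_eq_one_of_mem (chiN n x) _ hw
  intro v
  have h : ∀ g : Multiplicative (ZMod n), g ^ n = 1 := by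
    intro g
    have : n • (Multiplicative.toAdd g) = 0 := by simp
    exact this
  exact h _

theorem not_mem_of_chiN {n : ℕ} {x : X} {w : FreeGroup X} (h : chiN n x w ≠ 1) :
    w ∉ powSubgroup X n := fun hw => h (chiN_kills x hw)

theorem rank_one {n : ℕ} [Subsingleton X] (x : X) (f : FreeGroup X →* G)
    (hx : (f (FreeGroup.of x)) ^ n = 1) (w : FreeGroup X) : (f w) ^ n = 1 := by
  have hcyc : f.range ≤ Subgroup.zpowers (f (FreeGroup.of x)) := by
    apply range_le_of_gens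
    intro i
    rw [Subsingleton.elim i x]; exact Subgroup.mem_zpowers _
  obtain ⟨k, hk⟩ := hcyc ⟨w, rfl⟩
  have hk' : (f (FreeGroup.of x)) ^ k = f w := hk
  rw [← hk', ← zpow_natCast, ← zpow_mul, mul_comm, zpow_mul, zpow_natCast, hx, one_zpow]

theorem main2 [Nonempty X] (f : FreeGroup X →* G)
    (hf : ∀ w, w ∉ powSubgroup X 2 → (f w) ^ 2 = 1) : ∀ w, (f w) ^ 2 = 1 := by
  obtain ⟨x⟩ := ‹Nonempty X›
  have one_ne : (Multiplicative.ofAdd (1 : ZMod 2)) ≠ 1 := by decide
  intro w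
  by_cases hw : w ∈ powSubgroup X 2
  swap
  · exact hf w hw
  by_cases hsub : ∃ y, y ≠ x
  · obtain ⟨y, hy⟩ := hsub
    have a1 : (f (FreeGroup.of x)) ^ 2 = 1 := by
      apply hf; apply not_mem_of_chiN (x := x); rw [chiN_self]; exact one_ne
    have a2 : (f (FreeGroup.of y)) ^ 2 = 1 := by
      apply hf; apply not_mem_of_chiN (x := y); rw [chiN_self]; exact one_ne
    have b1 : (f (FreeGroup.of x) * f w) ^ 2 = 1 := by
      rw [← map_mul]; apply hf; apply not_mem_of_chiN (x := x)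
      rw [map_mul, chiN_self, chiN_kills x hw, mul_one]; exact one_ne
    have b2 : (f (FreeGroup.of y) * f w) ^ 2 = 1 := by
      rw [← map_mul]; apply hf; apply not_mem_of_chiN (x := y)
      rw [map_mul, chiN_self, chiN_kills y hw, mul_one]; exact one_ne
    have b3 : (f (FreeGroup.of x) * f (FreeGroup.of y) * f w) ^ 2 = 1 := by
      rw [← map_mul, ← map_mul]; apply hf; apply not_mem_of_chiN (x := x)
      rw [map_mul, map_mul, chiN_self, chiN_kills x hw, chiN_ne hy, mul_one, mul_one]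
      exact one_ne
    obtain ⟨a, ha⟩ : ∃ a, a = f (FreeGroup.of x) := ⟨_, rfl⟩
    obtain ⟨b, hb⟩ : ∃ b, b = f (FreeGroup.of y) := ⟨_, rfl⟩
    obtain ⟨h, hh⟩ : ∃ h, h = f w := ⟨_, rfl⟩
    rw [← ha] at a1 b1 b3
    rw [← hb] at a2 b2 b3
    rw [← hh] at b1 b2 b3 ⊢
    rw [pow_two] at a1 a2 b1 b2 b3 ⊢
    have c1 : h * b * h = b := by
      have : b * (h * b * h) = b * b := by rw [a2, ← b2]; simp only [mul_assoc]
      exact mul_left_cancel this
    have c2 : h * a * h = a := by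
      have : a * (h * a * h) = a * a := by rw [a1, ← b1]; simp only [mul_assoc]
      exact mul_left_cancel this
    -- (a b h)^2 = 1
    have c3 : a * (b * h) * a * (b * h) = 1 := by rw [← b3]; simp only [mul_assoc]
    have c4 : b * h = h⁻¹ * b := by
      have : h * (b * h) = b := by rw [← mul_assoc]; exact c1
      exact eq_inv_mul_of_mul_eq this
    have c5 : a * h⁻¹ = h * a := by
      have : h * a * h * h⁻¹ = a * h⁻¹ := by rw [c2]
      simpa using this.symm
    -- a h⁻¹ b a b h = 1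
    have c6 : h * (a * b * a * b) * h = 1 := by
      rw [c4] at c3
      calc h * (a * b * a * b) * h = (h * a) * b * a * (b * h) := by simp only [mul_assoc]
        _ = (a * h⁻¹) * b * a * (h⁻¹ * b) := by rw [c5, c4]
        _ = 1 := by rw [← c3]; simp only [mul_assoc]
    have c7 : (a * b) * (a * b) = 1 := by
      have : (f (FreeGroup.of x * FreeGroup.of y)) ^ 2 = 1 := by
        apply hf; apply not_mem_of_chiN (x := x)
        rw [map_mul, chiN_self, chiN_ne hy, mul_one]; exact one_ne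
      rw [map_mul, ← ha, ← hb, pow_two] at this
      exact this
    have c8 : a * b * a * b = 1 := by rw [← c7]; simp only [mul_assoc]
    rw [c8, mul_one] at c6
    exact c6
  · push Not at hsub
    have : Subsingleton X := ⟨fun a b => by rw [hsub a, hsub b]⟩
    apply rank_one x
    apply hf; apply not_mem_of_chiN (x := x); rw [chiN_self]; exact one_ne

theorem main3 [Nonempty X] (f : FreeGroup X →* G)
    (hf : ∀ w, w ∉ powSubgroup X 3 → (f w) ^ 3 = 1) : ∀ w, (f w) ^ 3 = 1 := by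
  obtain ⟨x⟩ := ‹Nonempty X›
  have one_ne : (Multiplicative.ofAdd (1 : ZMod 3)) ≠ 1 := by decide
  have two_ne : (Multiplicative.ofAdd (1 : ZMod 3))⁻¹ ≠ 1 := by decide
  by_cases hsub : ∃ y, y ≠ x
  swap
  · push Not at hsub
    have : Subsingleton X := ⟨fun a b => by rw [hsub a, hsub b]⟩
    intro w
    apply rank_one x
    apply hf; apply not_mem_of_chiN (x := x); rw [chiN_self]; exact one_ne
  obtain ⟨y0, hy0⟩ := hsub
  have hother : ∀ x : X, ∃ y, y ≠ x := by
    intro z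
    by_cases h : z = x
    · exact ⟨y0, by rw [h]; exact hy0⟩
    · exact ⟨x, fun e => h e.symm⟩
  have key : ∀ (z : X) (w : FreeGroup X), w ∈ powSubgroup X 3 →
      Commute (f (FreeGroup.of z)) ((f w) ^ 3) ∧ ((f w) ^ 3) ^ 3 = 1 := by
    intro z w hw
    obtain ⟨y, hy⟩ := hother z
    have hk := chiN_kills z hw
    have hky := chiN_kills y hw
    have P : ∀ v : FreeGroup X, chiN 3 z v = Multiplicative.ofAdd 1 → (f v) ^ 3 = 1 := by
      intro v hv; apply hf; apply not_mem_of_chiN (x := z); rw [hv]; exact one_ne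
    have Py : ∀ v : FreeGroup X, chiN 3 y v = Multiplicative.ofAdd 1 → (f v) ^ 3 = 1 := by
      intro v hv; apply hf; apply not_mem_of_chiN (x := y); rw [hv]; exact one_ne
    have Pi : ∀ v : FreeGroup X, chiN 3 z v = (Multiplicative.ofAdd 1)⁻¹ → (f v) ^ 3 = 1 := by
      intro v hv; apply hf; apply not_mem_of_chiN (x := z); rw [hv]; exact two_ne
    have res := three_core (x := f (FreeGroup.of z)) (y := f (FreeGroup.of y)) (h := f w)
      (P _ (chiN_self 3 z)) (Py _ (chiN_self 3 y))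
      (by rw [← map_mul]; apply P; simp [chiN_self, chiN_ne hy])
      (by rw [← map_inv, ← map_mul]; apply P; simp [chiN_self, chiN_ne hy])
      (by rw [← map_mul]; apply Py; simp [chiN_self, hky])
      (by rw [← map_mul, ← map_mul]; apply P; simp [chiN_self, chiN_ne hy, hk])
      (by rw [← map_mul, ← map_inv, ← map_mul]; apply P; simp [chiN_self, chiN_ne hy, hk])
      (by rw [← map_mul]; apply P; simp [chiN_self, hk])
      (by rw [← map_inv, ← map_mul]; apply Pi; simp [chiN_self, hk])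
      (by
        have := P (FreeGroup.of z * ((FreeGroup.of z)⁻¹ * (FreeGroup.of y)⁻¹ * FreeGroup.of z *
          FreeGroup.of y)) (by simp [chiN_self, chiN_ne hy])
        simpa using this)
      (by
        have := P (FreeGroup.of z * ((FreeGroup.of z)⁻¹ * (FreeGroup.of y)⁻¹ * FreeGroup.of z *
          FreeGroup.of y) * (w * ((FreeGroup.of z)⁻¹ * w * FreeGroup.of z)⁻¹))
          (by simp [chiN_self, chiN_ne hy, hk])
        simpa using this)
    exact res
  -- every element of the image of the power subgroup has trivial cube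
  have hall : ∀ w ∈ powSubgroup X 3, (f w) ^ 3 = 1 ∧ ∀ z : X, Commute (f (FreeGroup.of z)) (f w) := by
    intro w hw
    induction hw using Subgroup.closure_induction with
    | mem u hu =>
      obtain ⟨v, rfl⟩ := hu
      rw [map_pow]
      by_cases hv : v ∈ powSubgroup X 3
      · exact ⟨(key x v hv).2, fun z => (key z v hv).1⟩
      · rw [hf v hv]; exact ⟨one_pow _, fun z => Commute.one_right _⟩
    | one => rw [map_one]; exact ⟨one_pow _, fun z => Commute.one_right _⟩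
    | mul a b _ _ iha ihb =>
      rw [map_mul]
      refine ⟨?_, fun z => (iha.2 z).mul_right (ihb.2 z)⟩
      have hc : Commute (f a) (f b) := by
        have hle : f.range ≤ Subgroup.centralizer {f b} := by
          apply range_le_of_gens
          intro z
          rw [Subgroup.mem_centralizer_singleton_iff]
          exact (ihb.2 z).eq
        have := hle ⟨a, rfl⟩
        rw [Subgroup.mem_centralizer_singleton_iff] at this
        exact this
      rw [hc.mul_pow, iha.1, ihb.1, one_mul]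
    | inv a _ iha =>
      rw [map_inv]
      exact ⟨by rw [inv_pow, iha.1, inv_one], fun z => (iha.2 z).inv_right⟩
  intro w
  by_cases hw : w ∈ powSubgroup X 3
  · exact (hall w hw).1
  · exact hf w hw

end

end Pool.Agent.Helper3.FOB
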