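import Mathlib

/-!
Two endomorphisms of an abelian group without elements of order two whose relevant
products satisfy `1 + ω + ω² + ω³ = 0`: the group is trivial.
-/

namespace Pool.Agent.Helper3.FOB

theorem vanish {A : Type*} [AddCommGroup A] (α β : A →+ A)
    (hodd : ∀ v : A, v + v = 0 → v = 0)
    (hα : ∀ v, v + α v + α (α v) + α (α (α v)) = 0)
    (hβ : ∀ v, v + β v + β (β v) + β (β (β v)) = 0)
    (hsb : ∀ v, v + α (α (β v)) + α (α (β (α (α (β v))))) +
      α (α (β (α (α (β (α (α (β v)))))))) = 0)
    (hat : ∀ v, v + α (β (β v)) + α (β (β (α (β (β v))))) +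
      α (β (β (α (β (β (α (β (β v)))))))) = 0)
    (hst : ∀ v, v + α (α (β (β v))) + α (α (β (β (α (α (β (β v))))))) +
      α (α (β (β (α (α (β (β (α (α (β (β v))))))))))) = 0) :
    ∀ v : A, v = 0 := by
  have hfour : ∀ v : A, v + v + v + v = 0 → v = 0 := by
    intro v h
    apply hodd; apply hodd
    rw [← h]; abel
  -- fourth powers are the identity
  have α4 : ∀ v, α (α (α (α v))) = v := by
    intro v
    have h1 := hα v
    have h2 := hα (α v)
    have : α (α (α (α v))) - v = (α v + α (α v) + α (α (α v)) + α (α (α (α v)))) -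
        (v + α v + α (α v) + α (α (α v))) := by abel
    rw [h1, h2, sub_zero] at this
    exact sub_eq_zero.mp this
  have β4 : ∀ v, β (β (β (β v))) = v := by
    intro v
    have h1 := hβ v
    have h2 := hβ (β v)
    have : β (β (β (β v))) - v = (β v + β (β v) + β (β (β v)) + β (β (β (β v)))) -
        (v + β v + β (β v) + β (β (β v))) := by abel
    rw [h1, h2, sub_zero] at this
    exact sub_eq_zero.mp this
  -- (1) behaviour on fixed vectors of the squares
  have e1 : ∀ v, β (β v) = v → β v = -v := by
    intro v h
    have h1 := hβ v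
    rw [h] at h1
    have h2 : (v + β v) + (v + β v) = 0 := by rw [← h1]; abel
    have := hodd _ h2
    exact (neg_eq_of_add_eq_zero_right this).symm
  have e1' : ∀ v, α (α v) = v → α v = -v := by
    intro v h
    have h1 := hα v
    rw [h] at h1
    have h2 : (v + α v) + (v + α v) = 0 := by rw [← h1]; abel
    have := hodd _ h2
    exact (neg_eq_of_add_eq_zero_right this).symm
  -- (2)
  have e2 : ∀ v, β (β v) = v → α (α v) = -v → v = 0 := by
    intro v h1 h2
    have h3 : α (α (β v)) = v := by rw [e1 v h1, map_neg, map_neg, h2, neg_neg]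
    have h := hsb v
    rw [h3, h3, h3] at h
    exact hfour v h
  -- (4)
  have e4 : ∀ v, α (α v) = v → β (β v) = -v → v = 0 := by
    intro v h1 h2
    have h3 : α (β (β v)) = v := by rw [h2, map_neg, e1' v h1, neg_neg]
    have h := hat v
    rw [h3, h3, h3] at h
    exact hfour v h
  -- (6)
  have e6 : ∀ v, α (α (β (β v))) = -v → v = 0 := by
    intro v h
    have h1 : β (β v) = -α (α v) := by
      have := congrArg (fun w => α (α w)) h
      simp only [α4, map_neg] at this
      exact this
    have h2 : β (β (α (α v))) = -v := by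
      have h3 : α (α v) = -β (β v) := by rw [h1, neg_neg]
      rw [h3, map_neg, map_neg, β4]
    have p1 : v + α (α v) = 0 := by
      apply e4
      · rw [map_add, map_add, α4]; abel
      · rw [map_add, map_add, h1, h2]; abel
    have p2 : v - α (α v) = 0 := by
      apply e2
      · rw [map_sub, map_sub, h1, h2]; abel
      · rw [map_sub, map_sub, α4]; abel
    apply hodd
    have : v + v = (v + α (α v)) + (v - α (α v)) := by abel
    rw [this, p1, p2, add_zero]
  -- (7)
  have e7 : ∀ v, α (α (β (β (α (α (β (β v))))))) = -v := by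
    intro v
    have h := hst v
    obtain ⟨c, hc⟩ : ∃ c : A → A, c = fun w => α (α (β (β w))) := ⟨_, rfl⟩
    have hcadd : ∀ a b, c (a + b) = c a + c b := by intro a b; simp [hc]
    have h' : v + c v + c (c v) + c (c (c v)) = 0 := by rw [hc]; exact h
    have h2 : c (v + c (c v)) = -(v + c (c v)) := by
      rw [hcadd]
      have : (v + c (c v)) + (c v + c (c (c v))) = 0 := by rw [← h']; abel
      exact (neg_eq_of_add_eq_zero_right this).symm
    have h3 : v + c (c v) = 0 := by
      apply e6; rw [hc] at h2 ⊢; exact h2
    have h4 : c (c v) = -v := (neg_eq_of_add_eq_zero_right h3).symm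
    rw [hc] at h4; exact h4
  have e7' : ∀ v, β (β (α (α (β (β v))))) = -α (α v) := by
    intro v
    have := congrArg (fun w => α (α w)) (e7 v)
    simp only [α4, map_neg] at this
    exact this
  -- (8) the fixed space of α² vanishes
  have e8 : ∀ v, α (α v) = v → v = 0 := by
    intro v hv
    -- y = α (t v)
    have hu4 : α (β (β (α (β (β (α (β (β (α (β (β v))))))))))) = v := by
      have h1 := hat v
      have h2 := hat (α (β (β v)))
      obtain ⟨u, hu⟩ : ∃ u : A → A, u = fun w => α (β (β w)) := ⟨_, rfl⟩
      have h1' : v + u v + u (u v) + u (u (u v)) = 0 := by rw [hu]; exact h1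
      have h2' : u v + u (u v) + u (u (u v)) + u (u (u (u v))) = 0 := by rw [hu]; exact h2
      have : u (u (u (u v))) - v = (u v + u (u v) + u (u (u v)) + u (u (u (u v)))) -
        (v + u v + u (u v) + u (u (u v))) := by abel
      rw [h1', h2', sub_zero] at this
      have h3 := sub_eq_zero.mp this
      rw [hu] at h3; exact h3
    -- s (t v) = - t v
    have htv : α (α (β (β v))) = -β (β v) := by
      have h := e7' (β (β v))
      rw [β4] at h
      have h2 := e7' v
      -- t (s (t v)) = -s v = -v
      rw [hv] at h2
      have h3 := congrArg (fun w => β (β w)) h2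
      simp only [β4, map_neg] at h3
      exact h3
    obtain ⟨y, hy⟩ : ∃ y, y = α (β (β v)) := ⟨_, rfl⟩
    have hsy : α (α y) = -y := by rw [hy, htv, map_neg]
    have hty : α (α (β (β y))) = β (β y) := by
      have h2 := e7' y
      rw [hsy, neg_neg] at h2
      have h3 := congrArg (fun w => β (β w)) h2
      simp only [β4] at h3
      exact h3
    have hαty : α (β (β y)) = -β (β y) := e1' _ hty
    have hαy : α y = -β (β v) := by rw [hy]; exact htv
    rw [← hy, hαty] at hu4
    simp only [map_neg, β4] at hu4
    -- now: -(α (β (β (α y)))) ...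
    rw [hαy] at hu4
    simp only [map_neg, β4, neg_neg] at hu4
    have hαv : α v = -v := e1' v hv
    rw [hαv] at hu4
    apply hodd
    have : v = -v := hu4.symm
    nth_rewrite 1 [this]; abel
  intro v
  have h1 : v + α (α v) = 0 := by
    apply e8; rw [map_add, map_add, α4]; abel
  have hs : ∀ w, α (α w) = -w := by
    intro w
    have h1 : w + α (α w) = 0 := by
      apply e8; rw [map_add, map_add, α4]; abel
    exact (neg_eq_of_add_eq_zero_right h1).symm
  have h := e7' v
  rw [hs, hs, map_neg, map_neg, β4, neg_neg] at h
  apply hodd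
  nth_rewrite 1 [← h]; abel

end Pool.Agent.Helper3.FOB
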